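import Mathlib

/-!
Families of `5`-sets pairwise sharing at least `4` points.
-/

namespace Q43.Kn
open Finset

variable {α : Type*} [DecidableEq α]

lemma sub_S {u e : Finset α} {a b : α} (hu : u.card = 4) (ha : a ∉ u) (hb : b ∉ u) (hab : a ≠ b)
    (he : e.card = 5) (h1 : 4 ≤ (e ∩ insert a u).card) (h2 : 4 ≤ (e ∩ insert b u).card)
    (hne : ¬ u ⊆ e) : e ⊆ insert a (insert b u) := by
  have h3 : (e ∩ u).card ≤ 3 := by
    by_contra hcon
    have h4 : u.card ≤ (e ∩ u).card := by omega
    have h5 : e ∩ u = u := eq_of_subset_of_card_le inter_subset_right h4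
    exact hne (h5 ▸ inter_subset_left)
  have hae : a ∈ e := by
    by_contra hcon
    have : e ∩ insert a u ⊆ e ∩ u := by
      intro x hx
      simp only [mem_inter, mem_insert] at hx ⊢
      rcases hx.2 with rfl | h
      · exact absurd hx.1 hcon
      · exact ⟨hx.1, h⟩
    have := card_le_card this
    omega
  have hbe : b ∈ e := by
    by_contra hcon
    have : e ∩ insert b u ⊆ e ∩ u := by
      intro x hx
      simp only [mem_inter, mem_insert] at hx ⊢
      rcases hx.2 with rfl | h
      · exact absurd hx.1 hcon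
      · exact ⟨hx.1, h⟩
    have := card_le_card this
    omega
  have h6 : e ∩ insert a u ⊆ insert a (e ∩ u) := by
    intro x hx
    simp only [mem_inter, mem_insert] at hx ⊢
    rcases hx.2 with rfl | h
    · exact Or.inl rfl
    · exact Or.inr ⟨hx.1, h⟩
  have h7 := card_le_card h6
  have h8 := card_insert_le a (e ∩ u)
  have h9 : (e ∩ u).card = 3 := by omega
  have h10 : insert a (insert b (e ∩ u)) ⊆ e := by
    intro x hx
    simp only [mem_inter, mem_insert] at hx
    rcases hx with rfl | rfl | h
    · exact hae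
    · exact hbe
    · exact h.1
  have h11 : (insert a (insert b (e ∩ u))).card = 5 := by
    rw [card_insert_of_notMem, card_insert_of_notMem, h9]
    · simp [hb]
    · simp [ha, hab]
  have h12 : insert a (insert b (e ∩ u)) = e := eq_of_subset_of_card_le h10 (by omega)
  rw [← h12]
  intro x hx
  simp only [mem_inter, mem_insert] at hx ⊢
  rcases hx with rfl | rfl | h
  · exact Or.inl rfl
  · exact Or.inr (Or.inl rfl)
  · exact Or.inr (Or.inr h.2)

/-- Two distinct `5`-sets sharing `4` points. -/
lemma two_edges {e f : Finset α} (he : e.card = 5) (hf : f.card = 5) (hne : e ≠ f)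
    (h : 4 ≤ (e ∩ f).card) : (e ∩ f).card = 4 ∧ ∃ a b, a ∉ e ∩ f ∧ b ∉ e ∩ f ∧ a ≠ b ∧
      e = insert a (e ∩ f) ∧ f = insert b (e ∩ f) := by
  have h1 : (e ∩ f).card = 4 := by
    have h2 : (e ∩ f).card ≤ 5 := by rw [← he]; exact card_le_card inter_subset_left
    rcases Nat.lt_or_ge (e ∩ f).card 5 with h3 | h3
    · omega
    · exfalso
      have h4 : e ∩ f = e := eq_of_subset_of_card_le inter_subset_left (by omega)
      have h5 : e ∩ f = f := eq_of_subset_of_card_le inter_subset_right (by omega)
      exact hne (h4.symm.trans h5)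
  refine ⟨h1, ?_⟩
  have h6 : (e \ f).card = 1 := by
    have := card_sdiff_add_card_inter e f
    omega
  have h7 : (f \ e).card = 1 := by
    have := card_sdiff_add_card_inter f e
    rw [inter_comm] at this
    omega
  obtain ⟨a, ha⟩ := card_eq_one.mp h6
  obtain ⟨b, hb⟩ := card_eq_one.mp h7
  have ha' : a ∈ e \ f := by rw [ha]; simp
  have hb' : b ∈ f \ e := by rw [hb]; simp
  rw [mem_sdiff] at ha' hb'
  refine ⟨a, b, fun h => ha'.2 (mem_inter.mp h).2, fun h => hb'.2 (mem_inter.mp h).1, ?_, ?_, ?_⟩
  · rintro rfl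
    exact ha'.2 hb'.1
  · ext x
    simp only [mem_insert, mem_inter]
    constructor
    · intro hx
      by_cases hxf : x ∈ f
      · exact Or.inr ⟨hx, hxf⟩
      · left
        have : x ∈ e \ f := mem_sdiff.mpr ⟨hx, hxf⟩
        rw [ha] at this
        exact mem_singleton.mp this
    · rintro (rfl | h)
      · exact ha'.1
      · exact h.1
  · ext x
    simp only [mem_insert, mem_inter]
    constructor
    · intro hx
      by_cases hxf : x ∈ e
      · exact Or.inr ⟨hxf, hx⟩
      · left
        have : x ∈ f \ e := mem_sdiff.mpr ⟨hx, hxf⟩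
        rw [hb] at this
        exact mem_singleton.mp this
    · rintro (rfl | h)
      · exact hb'.1
      · exact h.2

/-- A family of at least seven `5`-sets pairwise sharing at least `4` points has a common
`4`-set. -/
theorem clique (F : Finset (Finset α)) (h5 : ∀ e ∈ F, e.card = 5)
    (h4 : ∀ e ∈ F, ∀ f ∈ F, 4 ≤ (e ∩ f).card) (h7 : 7 ≤ F.card) :
    ∃ u : Finset α, u.card = 4 ∧ ∀ e ∈ F, u ⊆ e := by
  obtain ⟨e1, he1, e2, he2, hne⟩ := one_lt_card.mp (show 1 < F.card by omega)
  obtain ⟨hu, a, b, ha, hb, hab, hea, heb⟩ :=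
    two_edges (h5 e1 he1) (h5 e2 he2) hne (h4 e1 he1 e2 he2)
  set u := e1 ∩ e2 with hudef
  refine ⟨u, hu, ?_⟩
  by_contra hcon
  push Not at hcon
  obtain ⟨e3, he3, hue3⟩ := hcon
  have hS3 : e3 ⊆ insert a (insert b u) := by
    apply sub_S hu ha hb hab (h5 e3 he3)
    · rw [← hea]; exact h4 e3 he3 e1 he1
    · rw [← heb]; exact h4 e3 he3 e2 he2
    · exact hue3
  have hall : ∀ e ∈ F, e ⊆ insert a (insert b u) := by
    intro e he
    by_cases hue : u ⊆ e
    · by_contra hns
      obtain ⟨x, hx, hxS⟩ := not_subset.mp hns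
      have hex : insert x u = e := by
        apply eq_of_subset_of_card_le
        · intro y hy
          rcases mem_insert.mp hy with rfl | hy
          · exact hx
          · exact hue hy
        · rw [h5 e he, card_insert_of_notMem, hu]
          intro hxu
          exact hxS (mem_insert_of_mem (mem_insert_of_mem hxu))
      have h8 : e ∩ e3 ⊆ u ∩ e3 := by
        intro y hy
        rw [← hex] at hy
        simp only [mem_inter, mem_insert] at hy ⊢
        rcases hy.1 with rfl | h
        · exact absurd (hS3 hy.2) hxS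
        · exact ⟨h, hy.2⟩
      have h9 : u ∩ e3 ⊂ u := by
        refine ⟨inter_subset_left, fun h => hue3 (fun y hy => (mem_inter.mp (h hy)).2)⟩
      have h10 := card_lt_card h9
      have h11 := card_le_card h8
      have h12 := h4 e he e3 he3
      omega
    · apply sub_S hu ha hb hab (h5 e he)
      · rw [← hea]; exact h4 e he e1 he1
      · rw [← heb]; exact h4 e he e2 he2
      · exact hue
  have hsub : F ⊆ powersetCard 5 (insert a (insert b u)) := by
    intro e he
    rw [mem_powersetCard]
    exact ⟨hall e he, h5 e he⟩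
  have hc := card_le_card hsub
  rw [card_powersetCard] at hc
  have hSc : (insert a (insert b u)).card = 6 := by
    rw [card_insert_of_notMem, card_insert_of_notMem hb, hu]
    simp only [mem_insert, not_or]
    exact ⟨hab, ha⟩
  rw [hSc] at hc
  have : Nat.choose 6 5 = 6 := by decide
  omega

end Q43.Kn
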