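import Pool.Agent.Q43.Ko.Prob

/-!
Counting colorings of eight stars with 24 colours.
-/

set_option linter.unusedSectionVars false
set_option linter.unusedVariables false
set_option maxRecDepth 20000

namespace Q43.Kn
open Finset
open Q43.Ko (cnt filter_cnt cnt_mono cnt_or cnt_false)

section
variable {E : Type*} [Fintype E] [DecidableEq E] (st : E → Fin 8)

/-- The colour `i` is used on at most one star. -/
def PureAt (D : E → Fin 24) (i : Fin 24) : Prop := ∀ e f, D e = i → D f = i → st e = st f

/-- Number of colours other than `i` assigned to the star `j`. -/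
def S (i : Fin 24) (a : Fin 24 → Fin 8) (j : Fin 8) : ℕ :=
  (univ.filter (fun x => x ≠ i ∧ a x = j)).card

lemma S_le (i : Fin 24) (a : Fin 24 → Fin 8) (j : Fin 8) : S i a j ≤ 24 := by
  have := card_le_univ (univ.filter (fun x : Fin 24 => x ≠ i ∧ a x = j))
  simpa [S] using this

lemma sum_S (i : Fin 24) (a : Fin 24 → Fin 8) : ∑ j, S i a j = 23 := by
  have h1 := card_eq_sum_card_fiberwise (s := univ.filter (fun x : Fin 24 => x ≠ i))
    (t := (univ : Finset (Fin 8))) (f := a) (fun x _ => mem_univ _)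
  have h2 : (univ.filter (fun x : Fin 24 => x ≠ i)).card = 23 := by
    rw [filter_ne', card_erase_of_mem (mem_univ _)]; simp
  rw [h2] at h1
  rw [h1]
  apply sum_congr rfl
  intro j _
  rw [S, filter_filter]

lemma prod_st {m : ℕ} (hst : ∀ j, (univ.filter (fun e => st e = j)).card = m)
    {M : Type*} [CommMonoid M] (g : Fin 8 → M) : ∏ e, g (st e) = (∏ j, g j) ^ m := by
  rw [← prod_pow]
  rw [← Finset.prod_fiberwise (s := (univ : Finset E)) (g := st) (f := fun e => g (st e))]
  apply prod_congr rfl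
  intro j _
  rw [← hst j, ← prod_const]
  apply prod_congr rfl
  intro e he
  rw [(mem_filter.mp he).2]

/-- Colorings following `a` outside `F` and with colour `i` exactly on `F`. -/
def T (i : Fin 24) (F : Finset E) (a : Fin 24 → Fin 8) : Finset (E → Fin 24) :=
  Fintype.piFinset (fun e => if e ∈ F then {i} else univ.filter (fun x => x ≠ i ∧ a x = st e))

lemma card_T (i : Fin 24) (F : Finset E) (a : Fin 24 → Fin 8) :
    (T st i F a).card = ∏ e, (if e ∈ F then 1 else S i a (st e)) := by
  rw [T, Fintype.card_piFinset]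
  apply prod_congr rfl
  intro e _
  split_ifs <;> simp [S]

/-- Colorings with colour `i` exactly on `F`, all other colours pure. -/
def InX (i : Fin 24) (F : Finset E) (D : E → Fin 24) : Prop :=
  (∀ e, D e = i ↔ e ∈ F) ∧ ∀ x, x ≠ i → PureAt st D x

/-- Typed assignments. -/
def Ty (i : Fin 24) (t : Fin 8) : Finset (Fin 24 → Fin 8) :=
  univ.filter (fun a => a i = 0 ∧ S i a t = 2 ∧ ∀ j, j ≠ t → S i a j = 3)

def AA (i : Fin 24) : Finset (Fin 24 → Fin 8) := univ.filter (fun a => a i = 0)

lemma exists_assign {i : Fin 24} {F : Finset E} {D : E → Fin 24} (h : InX st i F D) :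
    ∃ a ∈ AA i, D ∈ T st i F a := by
  classical
  refine ⟨fun x => if x = i then 0 else if h : ∃ e, D e = x then st h.choose else 0, ?_, ?_⟩
  · simp [AA]
  · rw [T, Fintype.mem_piFinset]
    intro e
    split_ifs with he
    · rw [mem_singleton]
      exact (h.1 e).mpr he
    · rw [mem_filter]
      have hne : D e ≠ i := fun h' => he ((h.1 e).mp h')
      refine ⟨mem_univ _, hne, ?_⟩
      have hex : ∃ f, D f = D e := ⟨e, rfl⟩
      simp only [if_neg hne]
      rw [dif_pos hex]
      exact h.2 (D e) hne _ _ hex.choose_spec rfl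

lemma type_or (s : Fin 8 → ℕ) (h : ∑ j, s j = 23) :
    (∃ t, s t = 2 ∧ ∀ j, j ≠ t → s j = 3) ∨ ∃ j, 4 ≤ s j := by
  by_contra hcon
  push Not at hcon
  obtain ⟨h1, h2⟩ := hcon
  have hs3 : ∀ j, s j ≤ 3 := fun j => by have := h2 j; omega
  have hex : ∃ t, s t ≤ 2 := by
    by_contra hc
    push Not at hc
    have : ∀ j, s j = 3 := fun j => by have := hs3 j; have := hc j; omega
    rw [sum_congr rfl (fun j _ => this j)] at h
    simp at h
  obtain ⟨t, ht⟩ := hex
  have h3 : s t + ∑ j ∈ univ.erase t, s j = 23 := by rw [add_sum_erase _ _ (mem_univ t), h]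
  have h4 : ∑ j ∈ univ.erase t, s j ≤ ∑ _j ∈ univ.erase t, 3 := sum_le_sum (fun j _ => hs3 j)
  have h5 : ∑ _j ∈ (univ : Finset (Fin 8)).erase t, 3 = 21 := by
    rw [sum_const, card_erase_of_mem (mem_univ _)]; simp
  have ht2 : s t = 2 := by omega
  obtain ⟨j, hj, hj3⟩ := h1 t ht2
  have h6 : s j + ∑ x ∈ (univ.erase t).erase j, s x = ∑ j ∈ univ.erase t, s j :=
    add_sum_erase _ _ (mem_erase.mpr ⟨hj, mem_univ _⟩)
  have h7 : ∑ x ∈ (univ.erase t).erase j, s x ≤ ∑ _x ∈ (univ.erase t).erase j, 3 :=
    sum_le_sum (fun j _ => hs3 j)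
  have h8 : ∑ _x ∈ ((univ : Finset (Fin 8)).erase t).erase j, 3 = 18 := by
    rw [sum_const, card_erase_of_mem (mem_erase.mpr ⟨hj, mem_univ _⟩),
      card_erase_of_mem (mem_univ _)]; simp
  have := hs3 j
  omega

lemma mcube_le : ∀ s < 25, (max 1 s) ^ 3 ≤ 3 ^ s := by decide
lemma mcube_lt : ∀ s < 25, 4 ≤ s → 81 * (max 1 s) ^ 3 ≤ 64 * 3 ^ s := by decide

lemma prod_mcube (s : Fin 8 → ℕ) (hs : ∀ j, s j < 25) (J : Finset (Fin 8)) :
    ∏ j ∈ J, (max 1 (s j)) ^ 3 ≤ 3 ^ (∑ j ∈ J, s j) := by
  rw [← prod_pow_eq_pow_sum]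
  exact prod_le_prod' (fun j _ => mcube_le _ (hs j))

lemma prod_nontype (s : Fin 8 → ℕ) (hs : ∀ j, s j < 25) (h : ∑ j, s j = 23)
    (h4 : ∃ j, 4 ≤ s j) : ∏ j, max 1 (s j) ≤ 4206 := by
  obtain ⟨j, hj⟩ := h4
  have h1 : 81 * (∏ j, max 1 (s j)) ^ 3 ≤ 64 * 3 ^ 23 := by
    rw [← prod_pow, ← mul_prod_erase univ (fun j => (max 1 (s j)) ^ 3) (mem_univ j)]
    calc 81 * ((max 1 (s j)) ^ 3 * ∏ x ∈ univ.erase j, (max 1 (s x)) ^ 3)
        = (81 * (max 1 (s j)) ^ 3) * ∏ x ∈ univ.erase j, (max 1 (s x)) ^ 3 := by ring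
      _ ≤ (64 * 3 ^ (s j)) * 3 ^ (∑ x ∈ univ.erase j, s x) :=
          Nat.mul_le_mul (mcube_lt _ (hs j) hj) (prod_mcube s hs _)
      _ = 64 * 3 ^ (s j + ∑ x ∈ univ.erase j, s x) := by rw [pow_add]; ring
      _ = 64 * 3 ^ 23 := by rw [add_sum_erase _ _ (mem_univ j), h]
  by_contra hcon
  have h2 : 4207 ≤ ∏ j, max 1 (s j) := by omega
  have h3 : 4207 ^ 3 ≤ (∏ j, max 1 (s j)) ^ 3 := Nat.pow_le_pow_left h2 3
  have h4 : 81 * 4207 ^ 3 ≤ 64 * 3 ^ 23 := le_trans (Nat.mul_le_mul_left _ h3) h1
  norm_num at h4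

lemma prod_22 (s : Fin 8 → ℕ) (hs : ∀ j, s j < 25) (h : ∑ j, s j ≤ 22) :
    ∏ j, max 1 (s j) ≤ 3155 := by
  have h1 : (∏ j, max 1 (s j)) ^ 3 ≤ 3 ^ 22 := by
    rw [← prod_pow]
    exact le_trans (prod_mcube s hs _) (Nat.pow_le_pow_right (by norm_num) h)
  by_contra hcon
  have h2 : 3156 ≤ ∏ j, max 1 (s j) := by omega
  have h3 : 3156 ^ 3 ≤ (∏ j, max 1 (s j)) ^ 3 := Nat.pow_le_pow_left h2 3
  have h4 : 3156 ^ 3 ≤ 3 ^ 22 := le_trans h3 h1
  norm_num at h4

lemma card_T_nontype {m : ℕ} (hst : ∀ j, (univ.filter (fun e => st e = j)).card = m)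
    {i : Fin 24} {F : Finset E} {a : Fin 24 → Fin 8} (h4 : ∃ j, 4 ≤ S i a j) :
    (T st i F a).card ≤ 4206 ^ m := by
  rw [card_T]
  calc ∏ e, (if e ∈ F then 1 else S i a (st e)) ≤ ∏ e, max 1 (S i a (st e)) := by
        apply prod_le_prod'
        intro e _
        split_ifs
        · exact le_max_left _ _
        · exact le_max_right _ _
    _ = (∏ j, max 1 (S i a j)) ^ m := prod_st st hst (fun j => max 1 (S i a j))
    _ ≤ 4206 ^ m := Nat.pow_le_pow_left (prod_nontype _ (fun j => by
        have := S_le i a j; omega) (sum_S i a) h4) _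

/-- Number of elements of `F` in the star `t`. -/
def fc (F : Finset E) (t : Fin 8) : ℕ := (F.filter (fun e => st e = t)).card

/-- The weight of `F`. -/
noncomputable def W (F : Finset E) : ℝ := ∑ t, (1 / 3) ^ F.card * (3 / 2) ^ (fc st F t)

lemma card_T_type {m : ℕ} (hst : ∀ j, (univ.filter (fun e => st e = j)).card = m)
    {i : Fin 24} {F : Finset E} {a : Fin 24 → Fin 8} {t : Fin 8} (ha : a ∈ Ty i t) :
    ((T st i F a).card : ℝ) = 4374 ^ m * ((1 / 3) ^ F.card * (3 / 2) ^ (fc st F t)) := by
  rw [Ty, mem_filter] at ha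
  obtain ⟨_, _, h2, h3⟩ := ha
  have hS : ∀ j, (S i a j : ℝ) = if j = t then 2 else 3 := by
    intro j
    split_ifs with h
    · rw [h, h2]; norm_num
    · rw [h3 j h]; norm_num
  have hSpos : ∀ j, (0:ℝ) < S i a j := by
    intro j; rw [hS]; split_ifs <;> norm_num
  have e1 : ((T st i F a).card : ℝ) = ∏ e, (if e ∈ F then 1 else (S i a (st e) : ℝ)) := by
    rw [card_T]; push_cast; rfl
  have e2 : (∏ e, (if e ∈ F then (1:ℝ) else (S i a (st e) : ℝ))) * ∏ e ∈ F, (S i a (st e) : ℝ)
      = ∏ e, (S i a (st e) : ℝ) := by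
    have : ∏ e ∈ F, (S i a (st e) : ℝ) = ∏ e, (if e ∈ F then (S i a (st e) : ℝ) else 1) := by
      rw [prod_ite_mem, univ_inter]
    rw [this, ← prod_mul_distrib]
    apply prod_congr rfl
    intro e _
    split_ifs <;> ring
  have e3 : ∏ e, (S i a (st e) : ℝ) = 4374 ^ m := by
    rw [prod_st st hst (fun j => (S i a j : ℝ))]
    congr 1
    rw [← mul_prod_erase univ _ (mem_univ t), hS t, if_pos rfl]
    have : ∏ x ∈ univ.erase t, (S i a x : ℝ) = ∏ _x ∈ (univ : Finset (Fin 8)).erase t, 3 := by
      apply prod_congr rfl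
      intro x hx
      rw [hS, if_neg (ne_of_mem_erase hx)]
    rw [this, prod_const, card_erase_of_mem (mem_univ _)]
    norm_num
  have e4 : (∏ e ∈ F, (S i a (st e) : ℝ)) * ((1 / 3) ^ F.card * (3 / 2) ^ (fc st F t)) = 1 := by
    have h5 : (1 / 3 : ℝ) ^ F.card * (3 / 2) ^ (fc st F t)
        = ∏ e ∈ F, (if st e = t then (1 / 2 : ℝ) else 1 / 3) := by
      have h6 : ∏ e ∈ F, (if st e = t then (1 / 2 : ℝ) else 1 / 3)
          = ∏ e ∈ F, ((1 / 3) * (if st e = t then (3 / 2 : ℝ) else 1)) := by
        apply prod_congr rfl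
        intro e _
        split_ifs <;> norm_num
      rw [h6, prod_mul_distrib, prod_const, prod_ite, prod_const, prod_const_one, mul_one, fc]
    rw [h5, ← prod_mul_distrib]
    apply prod_eq_one
    intro e _
    rw [hS]
    split_ifs <;> norm_num
  rw [e1]
  calc ∏ e, (if e ∈ F then (1:ℝ) else (S i a (st e) : ℝ))
      = (∏ e, (if e ∈ F then (1:ℝ) else (S i a (st e) : ℝ))) *
        ((∏ e ∈ F, (S i a (st e) : ℝ)) * ((1 / 3) ^ F.card * (3 / 2) ^ (fc st F t))) := by
        rw [e4, mul_one]
    _ = ((∏ e, (if e ∈ F then (1:ℝ) else (S i a (st e) : ℝ))) * ∏ e ∈ F, (S i a (st e) : ℝ)) *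
        ((1 / 3) ^ F.card * (3 / 2) ^ (fc st F t)) := by ring
    _ = _ := by rw [e2, e3]

lemma card_Ty (i : Fin 24) (t t' : Fin 8) : (Ty i t).card = (Ty i t').card := by
  -- relabel the stars
  have key : ∀ t t' : Fin 8, (Ty i t).card ≤ (Ty i t').card := by
    intro t t'
    set r : (Fin 24 → Fin 8) → (Fin 24 → Fin 8) :=
      fun a x => if x = i then 0 else Equiv.swap t t' (a x) with hr
    have hS : ∀ a j, S i (r a) j = S i a (Equiv.swap t t' j) := by
      intro a j
      rw [S, S]
      congr 1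
      apply filter_congr
      intro x _
      constructor
      · rintro ⟨h1, h2⟩
        refine ⟨h1, ?_⟩
        simp only [hr, if_neg h1] at h2
        rw [← h2, Equiv.swap_apply_self]
      · rintro ⟨h1, h2⟩
        refine ⟨h1, ?_⟩
        simp only [hr, if_neg h1]
        rw [h2, Equiv.swap_apply_self]
    apply card_le_card_of_injOn r
    · intro a ha
      rw [mem_coe, Ty, mem_filter] at ha
      obtain ⟨_, h1, h2, h3⟩ := ha
      rw [mem_coe, Ty, mem_filter]
      refine ⟨mem_univ _, by simp [hr], ?_, ?_⟩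
      · rw [hS, Equiv.swap_apply_right, h2]
      · intro j hj
        rw [hS]
        apply h3
        intro h
        apply hj
        have := congrArg (Equiv.swap t t') h
        rw [Equiv.swap_apply_self, Equiv.swap_apply_left] at this
        exact this
    · intro a ha b hb hab
      rw [mem_coe, Ty, mem_filter] at ha hb
      funext x
      by_cases hx : x = i
      · rw [hx, ha.2.1, hb.2.1]
      · have := congrFun hab x
        simp only [hr, if_neg hx] at this
        exact (Equiv.swap t t').injective this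
  exact le_antisymm (key t t') (key t' t)

/-- The common number of typed assignments. -/
def NT (i : Fin 24) : ℕ := (Ty i 0).card

open Classical in
lemma upper_X {m : ℕ} (hst : ∀ j, (univ.filter (fun e => st e = j)).card = m)
    (i : Fin 24) (F : Finset E) :
    (cnt (InX st i F) : ℝ) ≤ NT i * 4374 ^ m * W st F + 8 ^ 24 * 4206 ^ m := by
  have hsub : univ.filter (InX st i F) ⊆ (univ.biUnion (fun t => (Ty i t).biUnion (T st i F))) ∪
      ((univ : Finset (Fin 24 → Fin 8)).filter (fun a => ∃ j, 4 ≤ S i a j)).biUnion (T st i F) := by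
    intro D hD
    rw [mem_filter] at hD
    obtain ⟨a, ha, hDa⟩ := exists_assign st hD.2
    rw [mem_union]
    rcases type_or _ (sum_S i a) with ⟨t, h1, h2⟩ | h4
    · left
      rw [mem_biUnion]
      refine ⟨t, mem_univ _, ?_⟩
      rw [mem_biUnion]
      refine ⟨a, ?_, hDa⟩
      rw [Ty, mem_filter]
      rw [AA, mem_filter] at ha
      exact ⟨mem_univ _, ha.2, h1, h2⟩
    · right
      rw [mem_biUnion]
      exact ⟨a, mem_filter.mpr ⟨mem_univ _, h4⟩, hDa⟩
  have h1 : (cnt (InX st i F) : ℝ) ≤
      ((univ.biUnion (fun t => (Ty i t).biUnion (T st i F))).card : ℝ) +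
      ((((univ : Finset (Fin 24 → Fin 8)).filter
        (fun a => ∃ j, 4 ≤ S i a j)).biUnion (T st i F)).card : ℝ) := by
    rw [← filter_cnt (inst := fun D => Classical.propDecidable _)]
    have := le_trans (card_le_card hsub) (card_union_le _ _)
    exact_mod_cast this
  have h2 : ((univ.biUnion (fun t => (Ty i t).biUnion (T st i F))).card : ℝ) ≤
      NT i * 4374 ^ m * W st F := by
    have h3 : ((univ.biUnion (fun t => (Ty i t).biUnion (T st i F))).card : ℝ) ≤
        ∑ t, ∑ a ∈ Ty i t, ((T st i F a).card : ℝ) := by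
      have : (univ.biUnion (fun t => (Ty i t).biUnion (T st i F))).card ≤
          ∑ t, ∑ a ∈ Ty i t, (T st i F a).card := by
        refine le_trans card_biUnion_le ?_
        apply sum_le_sum
        intro t _
        exact card_biUnion_le
      exact_mod_cast this
    refine le_trans h3 (le_of_eq ?_)
    rw [W, mul_sum]
    apply sum_congr rfl
    intro t _
    rw [sum_congr rfl (fun a ha => card_T_type st hst ha), sum_const, nsmul_eq_mul,
      card_Ty i t 0, NT]
    ring
  have h4 : ((((univ : Finset (Fin 24 → Fin 8)).filter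
        (fun a => ∃ j, 4 ≤ S i a j)).biUnion (T st i F)).card : ℝ) ≤ 8 ^ 24 * 4206 ^ m := by
    have h5 : (((univ : Finset (Fin 24 → Fin 8)).filter
        (fun a => ∃ j, 4 ≤ S i a j)).biUnion (T st i F)).card ≤ 8 ^ 24 * 4206 ^ m := by
      refine le_trans card_biUnion_le ?_
      calc ∑ a ∈ (univ : Finset (Fin 24 → Fin 8)).filter (fun a => ∃ j, 4 ≤ S i a j),
            (T st i F a).card
          ≤ ∑ _a ∈ (univ : Finset (Fin 24 → Fin 8)).filter (fun a => ∃ j, 4 ≤ S i a j),
            4206 ^ m := by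
            apply sum_le_sum
            intro a ha
            exact card_T_nontype st hst (mem_filter.mp ha).2
        _ = ((univ : Finset (Fin 24 → Fin 8)).filter (fun a => ∃ j, 4 ≤ S i a j)).card
            * 4206 ^ m := by rw [sum_const, smul_eq_mul]
        _ ≤ 8 ^ 24 * 4206 ^ m := by
            apply Nat.mul_le_mul_right
            have := card_le_univ ((univ : Finset (Fin 24 → Fin 8)).filter
              (fun a => ∃ j, 4 ≤ S i a j))
            rw [Fintype.card_fun, Fintype.card_fin, Fintype.card_fin] at this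
            exact this
    exact_mod_cast h5
  linarith

/-- Colorings in `T` missing the colour `x`. -/
def T' (i : Fin 24) (F : Finset E) (a : Fin 24 → Fin 8) (x : Fin 24) : Finset (E → Fin 24) :=
  Fintype.piFinset (fun e => if e ∈ F then {i} else
    univ.filter (fun y => (y ≠ i ∧ a y = st e) ∧ y ≠ x))

lemma card_T' {m : ℕ} (hst : ∀ j, (univ.filter (fun e => st e = j)).card = m)
    {i : Fin 24} {F : Finset E} {a : Fin 24 → Fin 8} {t : Fin 8} (ha : a ∈ Ty i t)
    {x : Fin 24} (hx : x ≠ i) :
    ((T' st i F a x).card : ℝ) ≤ (T st i F a).card * (2 / 3) ^ (m - F.card) := by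
  rw [Ty, mem_filter] at ha
  obtain ⟨_, _, h2, h3⟩ := ha
  have hS : ∀ j, S i a j = 2 ∨ S i a j = 3 := by
    intro j
    by_cases h : j = t
    · left; rw [h, h2]
    · right; exact h3 j h
  have e1 : ((T' st i F a x).card : ℝ) ≤
      ∏ e, ((if e ∈ F then (1:ℝ) else (S i a (st e) : ℝ)) *
        (if e ∈ (univ.filter (fun e => st e = a x)) \ F then (2 / 3 : ℝ) else 1)) := by
    rw [T', Fintype.card_piFinset, Nat.cast_prod]
    apply prod_le_prod
    · intro e _; positivity
    · intro e _
      by_cases he : e ∈ F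
      · rw [if_pos he, if_pos he, if_neg (fun h => (mem_sdiff.mp h).2 he)]
        simp
      · rw [if_neg he, if_neg he]
        by_cases hs : st e = a x
        · have hmem : e ∈ (univ.filter (fun e => st e = a x)) \ F :=
            mem_sdiff.mpr ⟨mem_filter.mpr ⟨mem_univ _, hs⟩, he⟩
          rw [if_pos hmem]
          have h4 : (univ.filter (fun y => (y ≠ i ∧ a y = st e) ∧ y ≠ x)).card + 1
              = S i a (st e) := by
            rw [S]
            have h5 : univ.filter (fun y => (y ≠ i ∧ a y = st e) ∧ y ≠ x)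
                = (univ.filter (fun y => y ≠ i ∧ a y = st e)).erase x := by
              ext y
              simp only [mem_filter, mem_univ, true_and, mem_erase]
              tauto
            rw [h5]
            apply card_erase_add_one
            rw [mem_filter]
            exact ⟨mem_univ _, hx, hs.symm⟩
          have h6 : ((univ.filter (fun y => (y ≠ i ∧ a y = st e) ∧ y ≠ x)).card : ℝ) + 1
              = (S i a (st e) : ℝ) := by exact_mod_cast h4
          rcases hS (st e) with h7 | h7
          · rw [h7] at h6 ⊢; push_cast at h6 ⊢; linarith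
          · rw [h7] at h6 ⊢; push_cast at h6 ⊢; linarith
        · have hmem : ¬ e ∈ (univ.filter (fun e => st e = a x)) \ F :=
            fun h => hs (mem_filter.mp (mem_sdiff.mp h).1).2
          rw [if_neg hmem, mul_one]
          rw [Nat.cast_le, S]
          apply card_le_card
          intro y hy
          rw [mem_filter] at hy ⊢
          exact ⟨hy.1, hy.2.1⟩
  have e2 : ∏ e, ((if e ∈ F then (1:ℝ) else (S i a (st e) : ℝ)) *
        (if e ∈ (univ.filter (fun e => st e = a x)) \ F then (2 / 3 : ℝ) else 1))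
      = (T st i F a).card * (2 / 3) ^ ((univ.filter (fun e => st e = a x)) \ F).card := by
    rw [prod_mul_distrib, card_T]
    push_cast
    congr 1
    rw [prod_ite_mem, univ_inter, prod_const]
  rw [e2] at e1
  refine le_trans e1 ?_
  apply mul_le_mul_of_nonneg_left _ (by positivity)
  apply pow_le_pow_of_le_one (by norm_num) (by norm_num)
  have h8 := le_card_sdiff F (univ.filter (fun e => st e = a x))
  rw [hst] at h8
  exact h8

open Classical in
lemma lower_X {m : ℕ} (hst : ∀ j, (univ.filter (fun e => st e = j)).card = m)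
    (i : Fin 24) {F : Finset E} (hF : F.card ≤ 3) :
    NT i * 4374 ^ m * W st F * (1 - 24 * (2 / 3) ^ (m - 3)) ≤ (cnt (InX st i F) : ℝ) := by
  set T0 : (Fin 24 → Fin 8) → Finset (E → Fin 24) := fun a =>
    (T st i F a).filter (fun D => ∀ x, x ≠ i → ∃ e, D e = x) with hT0
  have hT0c : ∀ t, ∀ a ∈ Ty i t, ((T st i F a).card : ℝ) * (1 - 24 * (2 / 3) ^ (m - 3)) ≤
      ((T0 a).card : ℝ) := by
    intro t a ha
    have hsub : T st i F a ⊆ T0 a ∪ (univ.filter (fun x : Fin 24 => x ≠ i)).biUnion
        (fun x => T' st i F a x) := by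
      intro D hD
      rw [mem_union]
      by_cases h : ∀ x, x ≠ i → ∃ e, D e = x
      · left; exact mem_filter.mpr ⟨hD, h⟩
      · right
        push Not at h
        obtain ⟨x, hx, hx2⟩ := h
        rw [mem_biUnion]
        refine ⟨x, mem_filter.mpr ⟨mem_univ _, hx⟩, ?_⟩
        rw [T', Fintype.mem_piFinset]
        intro e
        have hDe := (Fintype.mem_piFinset.mp hD) e
        by_cases he : e ∈ F
        · rw [if_pos he] at hDe ⊢; exact hDe
        · rw [if_neg he] at hDe ⊢
          rw [mem_filter] at hDe ⊢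
          exact ⟨mem_univ _, hDe.2, hx2 e⟩
    have h1 : ((T st i F a).card : ℝ) ≤ (T0 a).card +
        ∑ x ∈ univ.filter (fun x : Fin 24 => x ≠ i), ((T' st i F a x).card : ℝ) := by
      have := le_trans (card_le_card hsub) (card_union_le _ _)
      have h2 := le_trans this (Nat.add_le_add_left card_biUnion_le _)
      exact_mod_cast h2
    have h3 : ∑ x ∈ univ.filter (fun x : Fin 24 => x ≠ i), ((T' st i F a x).card : ℝ)
        ≤ ∑ _x ∈ univ.filter (fun x : Fin 24 => x ≠ i),
          ((T st i F a).card : ℝ) * (2 / 3) ^ (m - 3) := by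
      apply sum_le_sum
      intro x hx
      refine le_trans (card_T' st hst ha (mem_filter.mp hx).2) ?_
      apply mul_le_mul_of_nonneg_left _ (by positivity)
      apply pow_le_pow_of_le_one (by norm_num) (by norm_num)
      omega
    rw [sum_const, nsmul_eq_mul] at h3
    have h4 : ((univ.filter (fun x : Fin 24 => x ≠ i)).card : ℝ) ≤ 24 := by
      have := card_le_univ (univ.filter (fun x : Fin 24 => x ≠ i))
      rw [Fintype.card_fin] at this
      exact_mod_cast this
    have h5 : (0:ℝ) ≤ ((T st i F a).card : ℝ) * (2 / 3) ^ (m - 3) := by positivity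
    have h6 := mul_le_mul_of_nonneg_right h4 h5
    nlinarith
  have hdis : ∀ t, ∀ a ∈ Ty i t, ∀ t', ∀ a' ∈ Ty i t', ∀ D, D ∈ T0 a → D ∈ T0 a' → a = a' := by
    intro t a ha t' a' ha' D hD hD'
    rw [Ty, mem_filter] at ha ha'
    rw [hT0, mem_filter] at hD hD'
    funext x
    by_cases hx : x = i
    · rw [hx, ha.2.1, ha'.2.1]
    · obtain ⟨e, he⟩ := hD.2 x hx
      have h1 := (Fintype.mem_piFinset.mp hD.1) e
      have h2 := (Fintype.mem_piFinset.mp hD'.1) e
      by_cases heF : e ∈ F
      · rw [if_pos heF, mem_singleton] at h1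
        exact absurd (he.symm.trans h1) hx
      · rw [if_neg heF, mem_filter] at h1 h2
        rw [← he, h1.2.2, h2.2.2]
  have hsub : univ.biUnion (fun t => (Ty i t).biUnion T0) ⊆ univ.filter (InX st i F) := by
    intro D hD
    rw [mem_biUnion] at hD
    obtain ⟨t, _, hD⟩ := hD
    rw [mem_biUnion] at hD
    obtain ⟨a, ha, hD⟩ := hD
    rw [hT0, mem_filter] at hD
    have hD1 := Fintype.mem_piFinset.mp hD.1
    have hout : ∀ e, e ∉ F → D e ≠ i ∧ a (D e) = st e := by
      intro e he
      have := hD1 e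
      rw [if_neg he, mem_filter] at this
      exact this.2
    rw [mem_filter]
    refine ⟨mem_univ _, ?_, ?_⟩
    · intro e
      constructor
      · intro h
        by_contra he
        exact (hout e he).1 h
      · intro he
        have := hD1 e
        rw [if_pos he, mem_singleton] at this
        exact this
    · intro x hx e f he hf
      have he' : e ∉ F := by
        intro h
        have := hD1 e
        rw [if_pos h, mem_singleton] at this
        exact hx (he.symm.trans this)
      have hf' : f ∉ F := by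
        intro h
        have := hD1 f
        rw [if_pos h, mem_singleton] at this
        exact hx (hf.symm.trans this)
      rw [← (hout e he').2, ← (hout f hf').2, he, hf]
  have hc1 : ((univ.biUnion (fun t => (Ty i t).biUnion T0)).card : ℝ)
      = ∑ t, ∑ a ∈ Ty i t, ((T0 a).card : ℝ) := by
    have hTydis : ∀ t t', t ≠ t' → Disjoint (Ty i t) (Ty i t') := by
      intro t t' htt
      rw [disjoint_left]
      intro a ha ha'
      rw [Ty, mem_filter] at ha ha'
      have h1 := ha.2.2.1
      have h2 := ha'.2.2.2 t htt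
      omega
    rw [card_biUnion]
    · push_cast
      apply sum_congr rfl
      intro t _
      rw [card_biUnion]
      · push_cast; rfl
      · intro a ha a' ha' hne
        change Disjoint _ _
        rw [disjoint_left]
        intro D hD hD'
        exact hne (hdis t a ha t a' ha' D hD hD')
    · intro t _ t' _ htt
      change Disjoint _ _
      rw [disjoint_left]
      intro D hD hD'
      rw [mem_biUnion] at hD hD'
      obtain ⟨a, ha, hD⟩ := hD
      obtain ⟨a', ha', hD'⟩ := hD'
      have := hdis t a ha t' a' ha' D hD hD'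
      subst this
      exact disjoint_left.mp (hTydis t t' htt) ha ha'
  have hc2 : ((univ.biUnion (fun t => (Ty i t).biUnion T0)).card : ℝ) ≤ (cnt (InX st i F) : ℝ) := by
    rw [← filter_cnt (inst := fun D => Classical.propDecidable _)]
    exact_mod_cast card_le_card hsub
  refine le_trans ?_ hc2
  rw [hc1, W, mul_sum, sum_mul]
  apply sum_le_sum
  intro t _
  calc NT i * 4374 ^ m * ((1 / 3) ^ F.card * (3 / 2) ^ fc st F t) * (1 - 24 * (2 / 3) ^ (m - 3))
      = ∑ a ∈ Ty i t, ((T st i F a).card : ℝ) * (1 - 24 * (2 / 3) ^ (m - 3)) := by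
        rw [← sum_mul, sum_congr rfl (fun a ha => card_T_type st hst ha), sum_const, nsmul_eq_mul,
          card_Ty i t 0, NT]
        ring
    _ ≤ ∑ a ∈ Ty i t, ((T0 a).card : ℝ) := sum_le_sum (fun a ha => hT0c t a ha)

end

end Q43.Kn
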