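import Pool.Agent.Q43.Kn.Count

/-!
Counting colorings of eight stars with 24 colours: comparison of two systems.
-/

set_option linter.unusedSectionVars false
set_option linter.unusedVariables false
set_option maxRecDepth 20000

namespace Q43.Kn
open Finset
open Q43.Ko (cnt filter_cnt cnt_mono cnt_or cnt_false)

section
variable {E : Type*} [Fintype E] [DecidableEq E] (st : E → Fin 8)

/-- All colours are pure. -/
def AllPure (D : E → Fin 24) : Prop := ∀ i, PureAt st D i

/-- Every impure colour class belongs to `FF`. -/
def Val (FF : Finset (Finset E)) (D : E → Fin 24) : Prop :=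
  ∀ i, PureAt st D i ∨ univ.filter (fun e => D e = i) ∈ FF

/-- Codes for colorings with two impure colours. -/
noncomputable def sc (c : Fin 24 → Fin 8 × Option (Finset E)) (j : Fin 8) : ℕ :=
  (univ.filter (fun i => (c i).2 = none ∧ (c i).1 = j)).card

open Classical in
noncomputable def al (c : Fin 24 → Fin 8 × Option (Finset E)) (e : E) : Finset (Fin 24) :=
  if h : ∃ i, ∃ F, (c i).2 = some F ∧ e ∈ F then {h.choose}
  else univ.filter (fun i => (c i).2 = none ∧ (c i).1 = st e)

lemma card_al (c : Fin 24 → Fin 8 × Option (Finset E)) (e : E) :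
    (al st c e).card ≤ max 1 (sc c (st e)) := by
  rw [al]
  split_ifs
  · rw [card_singleton]; exact le_max_left _ _
  · exact le_max_right _ _

lemma sum_sc (c : Fin 24 → Fin 8 × Option (Finset E)) :
    ∑ j, sc c j = (univ.filter (fun i => (c i).2 = none)).card := by
  have h1 := card_eq_sum_card_fiberwise (s := univ.filter (fun i : Fin 24 => (c i).2 = none))
    (t := (univ : Finset (Fin 8))) (f := fun i => (c i).1) (fun x _ => mem_univ _)
  rw [h1]
  apply sum_congr rfl
  intro j _
  rw [sc, filter_filter]

lemma sc_lt (c : Fin 24 → Fin 8 × Option (Finset E)) (j : Fin 8) : sc c j < 25 := by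
  have := card_le_univ (univ.filter (fun i : Fin 24 => (c i).2 = none ∧ (c i).1 = j))
  rw [Fintype.card_fin] at this
  rw [sc]; omega

open Classical in
lemma two_impure {m : ℕ} (hst : ∀ j, (univ.filter (fun e => st e = j)).card = m)
    (FF : Finset (Finset E)) :
    cnt (fun D : E → Fin 24 => Val st FF D ∧ ∃ i i', i ≠ i' ∧ ¬ PureAt st D i ∧ ¬ PureAt st D i')
      ≤ (8 * (FF.card + 1)) ^ 24 * 3155 ^ m := by
  set KK : Finset (Fin 8 × Option (Finset E)) := univ ×ˢ (insert none (FF.image some)) with hKK
  have hKKc : KK.card ≤ 8 * (FF.card + 1) := by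
    rw [hKK, card_product, card_univ, Fintype.card_fin]
    apply Nat.mul_le_mul_left
    refine le_trans (card_insert_le _ _) ?_
    have := card_image_le (s := FF) (f := (some : Finset E → Option (Finset E)))
    omega
  set CD : Finset (Fin 24 → Fin 8 × Option (Finset E)) :=
    (Fintype.piFinset (fun _ => KK)).filter
      (fun c => (univ.filter (fun i => (c i).2 = none)).card ≤ 22) with hCD
  have hCDc : CD.card ≤ (8 * (FF.card + 1)) ^ 24 := by
    refine le_trans (card_filter_le _ _) ?_
    rw [Fintype.card_piFinset, prod_const, card_univ, Fintype.card_fin]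
    exact Nat.pow_le_pow_left hKKc _
  have hsub : univ.filter (fun D : E → Fin 24 => Val st FF D ∧
      ∃ i i', i ≠ i' ∧ ¬ PureAt st D i ∧ ¬ PureAt st D i') ⊆
      CD.biUnion (fun c => Fintype.piFinset (al st c)) := by
    intro D hD
    rw [mem_filter] at hD
    obtain ⟨_, hV, i1, i2, hne, hi1, hi2⟩ := hD
    set c : Fin 24 → Fin 8 × Option (Finset E) := fun i =>
      if PureAt st D i then ((if h : ∃ e, D e = i then st h.choose else 0), none)
      else (0, some (univ.filter (fun e => D e = i))) with hc
    have hc1 : ∀ i, PureAt st D i →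
        c i = ((if h : ∃ e, D e = i then st h.choose else 0), none) := by
      intro i hi; simp only [hc]; rw [if_pos hi]
    have hc2 : ∀ i, ¬ PureAt st D i → c i = (0, some (univ.filter (fun e => D e = i))) := by
      intro i hi; simp only [hc]; rw [if_neg hi]
    rw [mem_biUnion]
    refine ⟨c, ?_, ?_⟩
    · rw [hCD, mem_filter, Fintype.mem_piFinset]
      refine ⟨?_, ?_⟩
      · intro i
        rw [hKK, mem_product]
        refine ⟨mem_univ _, ?_⟩
        by_cases h : PureAt st D i
        · rw [hc1 i h]; exact mem_insert_self _ _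
        · rw [hc2 i h]
          apply mem_insert_of_mem
          apply mem_image_of_mem
          rcases hV i with h' | h'
          · exact absurd h' h
          · exact h'
      · have h3 : univ.filter (fun i => (c i).2 = none) ⊆ (univ.erase i1).erase i2 := by
          intro i hi
          rw [mem_filter] at hi
          rw [mem_erase, mem_erase]
          refine ⟨?_, ?_, mem_univ _⟩
          · rintro rfl
            rw [hc2 _ hi2] at hi
            exact absurd hi.2 (by simp)
          · rintro rfl
            rw [hc2 _ hi1] at hi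
            exact absurd hi.2 (by simp)
        have h4 := card_le_card h3
        rw [card_erase_of_mem (mem_erase.mpr ⟨hne.symm, mem_univ _⟩),
          card_erase_of_mem (mem_univ _), card_univ, Fintype.card_fin] at h4
        exact h4
    · rw [Fintype.mem_piFinset]
      intro e
      rw [al]
      split_ifs with h
      · rw [mem_singleton]
        obtain ⟨F, hF, heF⟩ := h.choose_spec
        by_cases hp : PureAt st D h.choose
        · rw [hc1 _ hp] at hF
          exact absurd hF (by simp)
        · rw [hc2 _ hp] at hF
          have := Option.some.inj hF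
          rw [← this, mem_filter] at heF
          exact heF.2
      · rw [mem_filter]
        by_cases hp : PureAt st D (D e)
        · rw [hc1 _ hp]
          refine ⟨mem_univ _, rfl, ?_⟩
          have hex : ∃ f, D f = D e := ⟨e, rfl⟩
          show (if h : ∃ f, D f = D e then st h.choose else 0) = st e
          rw [dif_pos hex]
          exact hp _ _ hex.choose_spec rfl
        · exfalso
          apply h
          refine ⟨D e, univ.filter (fun f => D f = D e), ?_, mem_filter.mpr ⟨mem_univ _, rfl⟩⟩
          rw [hc2 _ hp]
  rw [← filter_cnt (inst := fun D => Classical.propDecidable _)]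
  refine le_trans (card_le_card (by
    intro D hD
    exact hsub (by simpa only [mem_filter] using hD))) (le_trans card_biUnion_le ?_)
  calc ∑ c ∈ CD, (Fintype.piFinset (al st c)).card ≤ ∑ _c ∈ CD, 3155 ^ m := by
        apply sum_le_sum
        intro c hc
        rw [Fintype.card_piFinset]
        calc ∏ e, (al st c e).card ≤ ∏ e, max 1 (sc c (st e)) :=
              prod_le_prod' (fun e _ => card_al st c e)
          _ = (∏ j, max 1 (sc c j)) ^ m := prod_st st hst (fun j => max 1 (sc c j))
          _ ≤ 3155 ^ m := by
              apply Nat.pow_le_pow_left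
              apply prod_22 _ (sc_lt c)
              rw [sum_sc]
              exact (mem_filter.mp hc).2
    _ = CD.card * 3155 ^ m := by rw [sum_const, smul_eq_mul]
    _ ≤ (8 * (FF.card + 1)) ^ 24 * 3155 ^ m := Nat.mul_le_mul_right _ hCDc

open Classical in
lemma upper_N {m : ℕ} (hst : ∀ j, (univ.filter (fun e => st e = j)).card = m)
    (FF : Finset (Finset E)) :
    cnt (Val st FF) ≤ cnt (AllPure st) + ∑ i, ∑ F ∈ FF, cnt (InX st i F) +
      (8 * (FF.card + 1)) ^ 24 * 3155 ^ m := by
  have h1 : cnt (Val st FF) ≤ cnt (fun D => (AllPure st D ∨ ∃ i, ∃ F ∈ FF, InX st i F D) ∨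
      (Val st FF D ∧ ∃ i i', i ≠ i' ∧ ¬ PureAt st D i ∧ ¬ PureAt st D i')) := by
    apply cnt_mono
    intro D hD
    by_cases h1 : AllPure st D
    · exact Or.inl (Or.inl h1)
    · rw [AllPure] at h1
      push Not at h1
      obtain ⟨i, hi⟩ := h1
      by_cases h2 : ∃ i', i ≠ i' ∧ ¬ PureAt st D i'
      · obtain ⟨i', h3, h4⟩ := h2
        exact Or.inr ⟨hD, i, i', h3, hi, h4⟩
      · push Not at h2
        left; right
        refine ⟨i, univ.filter (fun e => D e = i), ?_, ?_, ?_⟩
        · rcases hD i with h' | h'
          · exact absurd h' hi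
          · exact h'
        · intro e
          rw [mem_filter]
          exact ⟨fun h => ⟨mem_univ _, h⟩, fun h => h.2⟩
        · intro x hx
          exact h2 x (Ne.symm hx)
  have h2 : cnt (fun D => ∃ i, ∃ F ∈ FF, InX st i F D) ≤ ∑ i, ∑ F ∈ FF, cnt (InX st i F) := by
    rw [← filter_cnt (inst := fun D => Classical.propDecidable _)]
    have hsub : (univ.filter (fun D => ∃ i, ∃ F ∈ FF, InX st i F D)) ⊆
        univ.biUnion (fun i => FF.biUnion (fun F => univ.filter (InX st i F))) := by
      intro D hD
      rw [mem_filter] at hD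
      obtain ⟨_, i, F, hF, h⟩ := hD
      rw [mem_biUnion]
      refine ⟨i, mem_univ _, ?_⟩
      rw [mem_biUnion]
      exact ⟨F, hF, mem_filter.mpr ⟨mem_univ _, h⟩⟩
    refine le_trans (card_le_card (by
      intro D hD
      exact hsub (by simpa only [mem_filter] using hD))) (le_trans card_biUnion_le ?_)
    apply sum_le_sum
    intro i _
    refine le_trans card_biUnion_le ?_
    apply sum_le_sum
    intro F _
    rw [filter_cnt]
  refine le_trans h1 (le_trans (cnt_or _ _) ?_)
  apply Nat.add_le_add _ (two_impure st hst FF)
  exact le_trans (cnt_or _ _) (Nat.add_le_add_left h2 _)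

open Classical in
lemma lower_N (FF : Finset (Finset E)) (hFF : ∀ F ∈ FF, ∃ e ∈ F, ∃ f ∈ F, st e ≠ st f) :
    cnt (AllPure st) + ∑ i, ∑ F ∈ FF, cnt (InX st i F) ≤ cnt (Val st FF) := by
  have hsub : univ.filter (AllPure st) ∪
      univ.biUnion (fun i => FF.biUnion (fun F => univ.filter (InX st i F))) ⊆
      univ.filter (Val st FF) := by
    intro D hD
    rw [mem_filter]
    refine ⟨mem_univ _, ?_⟩
    rcases mem_union.mp hD with h | h
    · intro i
      left
      exact (mem_filter.mp h).2 i
    · rw [mem_biUnion] at h
      obtain ⟨i, _, h⟩ := h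
      rw [mem_biUnion] at h
      obtain ⟨F, hF, h⟩ := h
      have hX := (mem_filter.mp h).2
      intro x
      by_cases hx : x = i
      · right
        have : univ.filter (fun e => D e = x) = F := by
          ext e
          rw [mem_filter, hx, hX.1 e]
          exact ⟨fun h => h.2, fun h => ⟨mem_univ _, h⟩⟩
        rw [this]; exact hF
      · left
        exact hX.2 x hx
  have hcard := card_le_card hsub
  have himp : ∀ i F D, F ∈ FF → InX st i F D → ¬ PureAt st D i := by
    intro i F D hF hX hp
    obtain ⟨e, he, f, hf, hne⟩ := hFF F hF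
    exact hne (hp e f ((hX.1 e).mpr he) ((hX.1 f).mpr hf))
  rw [card_union_of_disjoint, card_biUnion] at hcard
  · have h2 : ∀ i, (FF.biUnion (fun F => univ.filter (InX st i F))).card =
        ∑ F ∈ FF, cnt (InX st i F) := by
      intro i
      rw [card_biUnion]
      · apply sum_congr rfl
        intro F _
        rw [filter_cnt]
      · intro F hF F' hF' hne
        change Disjoint _ _
        rw [disjoint_left]
        intro D hD hD'
        have h1 := (mem_filter.mp hD).2
        have h2 := (mem_filter.mp hD').2
        apply hne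
        ext e
        rw [← h1.1 e, ← h2.1 e]
    rw [filter_cnt, filter_cnt, sum_congr rfl (fun i _ => h2 i)] at hcard
    exact hcard
  · intro i _ i' _ hne
    change Disjoint _ _
    rw [disjoint_left]
    intro D hD hD'
    rw [mem_biUnion] at hD hD'
    obtain ⟨F, hF, hD⟩ := hD
    obtain ⟨F', hF', hD'⟩ := hD'
    have h1 := (mem_filter.mp hD).2
    have h2 := (mem_filter.mp hD').2
    exact himp i F D hF h1 (h2.2 i hne)
  · rw [disjoint_left]
    intro D hD hD'
    rw [mem_biUnion] at hD'
    obtain ⟨i, _, hD'⟩ := hD'
    rw [mem_biUnion] at hD'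
    obtain ⟨F, hF, hD'⟩ := hD'
    exact himp i F D hF (mem_filter.mp hD').2 ((mem_filter.mp hD).2 i)

/-- Many pure colorings. -/
lemma pure_lower {m : ℕ} (hst : ∀ j, (univ.filter (fun e => st e = j)).card = m) :
    6561 ^ m ≤ cnt (AllPure st) := by
  classical
  set a : Fin 24 → Fin 8 := fun x => ⟨x.val / 3, by omega⟩ with ha
  have hsub : Fintype.piFinset (fun e : E => univ.filter (fun x => a x = st e)) ⊆
      univ.filter (AllPure st) := by
    intro D hD
    rw [Fintype.mem_piFinset] at hD
    rw [mem_filter]
    refine ⟨mem_univ _, ?_⟩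
    intro i e f he hf
    have h1 := (mem_filter.mp (hD e)).2
    have h2 := (mem_filter.mp (hD f)).2
    rw [← h1, ← h2, he, hf]
  have h1 := card_le_card hsub
  rw [filter_cnt, Fintype.card_piFinset] at h1
  have h3 : ∀ j : Fin 8, (univ.filter (fun x : Fin 24 => a x = j)).card = 3 := by
    rw [ha]; decide +kernel
  have h4 : ∏ j : Fin 8, (univ.filter (fun x : Fin 24 => a x = j)).card = 6561 := by
    rw [prod_congr rfl (fun j _ => h3 j), prod_const, card_univ, Fintype.card_fin]
    norm_num
  rw [prod_st st hst (fun j => (univ.filter (fun x => a x = j)).card), h4] at h1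
  exact h1

end

/-- The number of pure colorings depends only on the sizes of the stars. -/
lemma pure_eq {E E' : Type} [Fintype E] [DecidableEq E] [Fintype E'] [DecidableEq E']
    {st : E → Fin 8} {st' : E' → Fin 8} {m : ℕ}
    (hst : ∀ j, (univ.filter (fun e => st e = j)).card = m)
    (hst' : ∀ j, (univ.filter (fun e => st' e = j)).card = m) :
    cnt (AllPure st) = cnt (AllPure st') := by
  classical
  have hfib : ∀ j, Nonempty ({e // st e = j} ≃ {e // st' e = j}) := by
    intro j
    apply Fintype.card_eq.mp
    rw [Fintype.card_subtype, Fintype.card_subtype, hst, hst']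
  have f : ∀ j, ({e // st e = j} ≃ {e // st' e = j}) := fun j => (hfib j).some
  set φ : E ≃ E' := (Equiv.sigmaFiberEquiv st).symm.trans
    ((Equiv.sigmaCongrRight (fun j => (f j))).trans (Equiv.sigmaFiberEquiv st')) with hφ
  have hφst : ∀ e, st' (φ e) = st e := by
    intro e
    simp only [hφ, Equiv.trans_apply]
    exact ((f (st e)) ⟨e, rfl⟩).2
  rw [← filter_cnt (inst := fun D => Classical.propDecidable _),
    ← filter_cnt (inst := fun D => Classical.propDecidable _)]
  apply card_bij (fun D _ => D ∘ φ.symm)
  · intro D hD
    rw [mem_filter] at hD ⊢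
    refine ⟨mem_univ _, ?_⟩
    intro i e g he hg
    have := hD.2 i (φ.symm e) (φ.symm g) he hg
    rw [← hφst, ← hφst, Equiv.apply_symm_apply, Equiv.apply_symm_apply] at this
    exact this
  · intro D _ D' _ h
    funext e
    have := congrFun h (φ e)
    simpa using this
  · intro D hD
    refine ⟨D ∘ φ, ?_, ?_⟩
    · rw [mem_filter] at hD ⊢
      refine ⟨mem_univ _, ?_⟩
      intro i e g he hg
      rw [← hφst, ← hφst g]
      exact hD.2 i (φ e) (φ g) he hg
    · funext e
      simp

/-- An explicit typed assignment. -/
def exA (i x : Fin 24) : Fin 8 :=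
  if x = i then 0 else
    let k := if x.val < i.val then x.val else x.val - 1
    if k < 2 then 0 else if k < 5 then 1 else if k < 8 then 2 else if k < 11 then 3
    else if k < 14 then 4 else if k < 17 then 5 else if k < 20 then 6 else 7

lemma NT_pos (i : Fin 24) : 1 ≤ NT i := by
  have h : ∀ i : Fin 24, exA i i = 0 ∧ S i (exA i) 0 = 2 ∧ ∀ j, j ≠ 0 → S i (exA i) j = 3 := by
    decide +kernel
  rw [NT]
  apply card_pos.mpr
  exact ⟨exA i, mem_filter.mpr ⟨mem_univ _, h i⟩⟩

end Q43.Kn
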