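import Mathlib

/-!
The 32 five-element sets around eight planes of AG(3,2).
-/

namespace Q43.Kn
open Finset

def edN (i : ℕ) : ℕ :=
  [87, 93, 117, 213, 171, 174, 186, 234, 55, 59, 115, 179, 155, 157, 185, 217, 31, 47, 79, 143,
    167, 173, 181, 229, 61, 62, 124, 188, 151, 158, 182, 214].getD i 0

def plN (i : ℕ) : ℕ := [85, 170, 51, 153, 15, 165, 60, 150].getD i 0

def pop8 (a : ℕ) : ℕ :=
  a % 2 + a / 2 % 2 + a / 4 % 2 + a / 8 % 2 + a / 16 % 2 + a / 32 % 2 + a / 64 % 2 + a / 128 % 2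

def cmp (i j : Fin 32) : Bool := Nat.ble 4 (pop8 (Nat.land (edN i.val) (edN j.val)))

/-- The star of the edge `i`. -/
def str (i : Fin 32) : Fin 8 := ⟨i.val / 4, by omega⟩

/-- The bit set of `a`. -/
def bs (a : ℕ) : Finset (Fin 8) := univ.filter (fun x => Nat.testBit a x.val = true)

def edge (i : Fin 32) : Finset (Fin 8) := bs (edN i.val)
def plane (i : Fin 8) : Finset (Fin 8) := bs (plN i.val)

def pairs : Finset (Fin 32 × Fin 32) :=
  (univ ×ˢ univ).filter (fun p => p.1 < p.2 ∧ str p.1 ≠ str p.2 ∧ cmp p.1 p.2 = true)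

def triples : Finset (Fin 32 × Fin 32 × Fin 32) :=
  (univ ×ˢ univ ×ˢ univ).filter (fun p => p.1 < p.2.1 ∧ p.2.1 < p.2.2 ∧
    cmp p.1 p.2.1 = true ∧ cmp p.2.1 p.2.2 = true ∧ cmp p.1 p.2.2 = true ∧
    (str p.1 ≠ str p.2.1 ∨ str p.2.1 ≠ str p.2.2))

lemma card_pairs : pairs.card = 108 := by decide +kernel
lemma card_triples : triples.card = 204 := by decide +kernel
lemma cmp_spec : ∀ i j, cmp i j = true → 4 ≤ (edge i ∩ edge j).card := by decide +kernel
lemma edge_card : ∀ i, (edge i).card = 5 := by decide +kernel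
lemma plane_card : ∀ i, (plane i).card = 4 := by decide +kernel
lemma plane_sub : ∀ i, plane (str i) ⊆ edge i := by decide +kernel
lemma plane_inter : ∀ i j, i ≠ j → (plane i ∩ plane j).card ≤ 2 := by decide +kernel
lemma plane_01 : (plane 0 ∩ plane 1).card = 0 := by decide +kernel
lemma edge_inj : ∀ i j, edge i = edge j → i = j := by decide +kernel

end Q43.Kn
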