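import Pool.Agent.Q43.Kn.Sum

/-!
For `k = 24`, `l = 4`, `r = 5` the extremal `(C, r)`-complete hypergraphs do not have all pairwise
intersections of size `2 l - r - 1 = 2`.
-/

set_option linter.unusedSectionVars false
set_option linter.unusedVariables false

namespace Q43.Kn
open Finset Filter Topology
open Q43.Ko (cnt filter_cnt cnt_mono cnt_or cnt_false)

lemma ev_pow (c : ℝ) (k : ℕ) {a b : ℝ} (ha : 0 ≤ a) (hab : a < b) :
    ∀ᶠ n : ℕ in atTop, c * ((n : ℝ) ^ k * a ^ n) < b ^ n := by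
  have hb : 0 < b := lt_of_le_of_lt ha hab
  have h1 := tendsto_pow_const_mul_const_pow_of_lt_one k (r := a / b) (by positivity)
    ((div_lt_one hb).mpr hab)
  have h2 := h1.const_mul c
  rw [mul_zero] at h2
  filter_upwards [h2.eventually_lt_const (show (0 : ℝ) < 1 by norm_num)] with n hn
  have h3 : 0 < b ^ n := by positivity
  have h4 : c * ((n : ℝ) ^ k * a ^ n) = c * ((n : ℝ) ^ k * (a / b) ^ n) * b ^ n := by
    rw [div_pow]; field_simp
  rw [h4]
  calc c * ((n : ℝ) ^ k * (a / b) ^ n) * b ^ n < 1 * b ^ n := mul_lt_mul_of_pos_right hn h3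
    _ = b ^ n := one_mul _

lemma ev_num1 (c1 c2 : ℝ) : ∀ᶠ m : ℕ in atTop,
    c1 * 4206 ^ m + c2 * 3155 ^ m < (4374 : ℝ) ^ m := by
  filter_upwards [ev_pow (2 * c1) 0 (show (0 : ℝ) ≤ 4206 by norm_num)
    (show (4206 : ℝ) < 4374 by norm_num),
    ev_pow (2 * c2) 0 (show (0 : ℝ) ≤ 3155 by norm_num)
    (show (3155 : ℝ) < 4374 by norm_num)] with m h1 h2
  rw [pow_zero, one_mul] at h1 h2
  linarith

lemma ev_num2 : ∀ᶠ m : ℕ in atTop, (1 : ℝ) ≤ 179 * (1 - 24 * (2 / 3) ^ (m - 3)) - 157 := by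
  have h1 : Tendsto (fun m : ℕ => ((2 : ℝ) / 3) ^ (m - 3)) atTop (𝓝 0) :=
    (tendsto_pow_atTop_nhds_zero_of_lt_one (by norm_num) (by norm_num)).comp
      (tendsto_sub_atTop_nat 3)
  filter_upwards [h1.eventually_lt_const (show (0 : ℝ) < 1 / 1000 by norm_num)] with m hm
  linarith

lemma Kn_le {n : ℕ} (hn : 1 ≤ n) : Kn n ≤ 896 * n ^ 34 := by
  rw [Kn]
  have h1 : 1 ≤ n ^ 4 := Nat.one_le_pow _ _ hn
  have h2 : 1 ≤ n ^ 5 := Nat.one_le_pow _ _ hn
  calc (n ^ 4 + 1) * (7 * (n ^ 5 + 1) ^ 6) ≤ (2 * n ^ 4) * (7 * (2 * n ^ 5) ^ 6) :=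
        Nat.mul_le_mul (by omega) (Nat.mul_le_mul_left _ (Nat.pow_le_pow_left (by omega) 6))
    _ = 896 * n ^ 34 := by ring

lemma ev_num3 (K : ℕ) : ∀ᶠ n : ℕ in atTop,
    3 * ((Kn n) ^ 24 * (K * 6309 ^ n)) < 2 * 6561 ^ (n - 4) := by
  filter_upwards [ev_pow (6561 ^ 4 * 3 * 896 ^ 24 * K) 816 (show (0 : ℝ) ≤ 6309 by norm_num)
    (show (6309 : ℝ) < 6561 by norm_num), eventually_ge_atTop 4] with n h1 h4
  have h2 : (Kn n : ℝ) ≤ 896 * (n : ℝ) ^ 34 := by exact_mod_cast Kn_le (by omega)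
  have h3 : ((Kn n : ℝ)) ^ 24 ≤ (896 * (n : ℝ) ^ 34) ^ 24 :=
    pow_le_pow_left₀ (by positivity) h2 24
  have h5 : (896 * (n : ℝ) ^ 34) ^ 24 = 896 ^ 24 * (n : ℝ) ^ 816 := by
    rw [mul_pow, ← pow_mul]
  have h6 : (6561 : ℝ) ^ n = 6561 ^ 4 * 6561 ^ (n - 4) := by
    rw [← pow_add]; congr 1; omega
  have h7 : (3 * ((Kn n : ℝ) ^ 24 * (K * 6309 ^ n)) : ℝ) < 6561 ^ (n - 4) := by
    have h8 : (0 : ℝ) < 6561 ^ 4 := by positivity
    apply lt_of_mul_lt_mul_left _ h8.le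
    rw [← h6]
    refine lt_of_le_of_lt ?_ h1
    have h9 : (0 : ℝ) ≤ 6561 ^ 4 * 3 * (K * 6309 ^ n) := by positivity
    calc (6561 : ℝ) ^ 4 * (3 * ((Kn n : ℝ) ^ 24 * (K * 6309 ^ n)))
        = (6561 ^ 4 * 3 * (K * 6309 ^ n)) * (Kn n : ℝ) ^ 24 := by ring
      _ ≤ (6561 ^ 4 * 3 * (K * 6309 ^ n)) * (896 ^ 24 * (n : ℝ) ^ 816) :=
          mul_le_mul_of_nonneg_left (h3.trans h5.le) h9
      _ = 6561 ^ 4 * 3 * 896 ^ 24 * K * ((n : ℝ) ^ 816 * 6309 ^ n) := by ring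
  have h10 : 3 * ((Kn n) ^ 24 * (K * 6309 ^ n)) < 6561 ^ (n - 4) := by exact_mod_cast h7
  omega

/-- The eight planes have many colorings. -/
lemma kappa_tp_lower {n : ℕ} (h8 : 8 ≤ n) :
    6561 ^ (n - 4) ≤ kappa (HC (univ.image (tp h8)) 5) 24 4 := by
  rw [kappa_eq]
  refine le_trans (pure_lower _ (star_card (tp_good h8))) ?_
  apply cnt_mono
  intro D hD
  apply val_kneser h8
  intro i
  exact Or.inl (hD i)

/-- The sunflower is beaten by the eight planes. -/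
lemma compare {n : ℕ} (h8 : 8 ≤ n)
    (hn1 : 24 * 1024 * 8 ^ 24 * 4206 ^ (n - 4) + 8200 ^ 24 * 3155 ^ (n - 4) < (4374 : ℝ) ^ (n - 4))
    (hn2 : (1 : ℝ) ≤ 179 * (1 - 24 * (2 / 3) ^ (n - 4 - 3)) - 157)
    {t : Fin 8 → Finset (Fin n)} (h4 : ∀ i, (t i).card = 4)
    (h2 : ∀ i j, i ≠ j → (t i ∩ t j).card = 2) :
    kappa (HC (univ.image t) 5) 24 4 < kappa (HC (univ.image (tp h8)) 5) 24 4 := by
  have hg : Good t := ⟨h4, fun i j hij => (h2 i j hij).le⟩
  set m := n - 4 with hm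
  obtain ⟨hc, hW⟩ := FF1_sum h4 h2
  have u1 : kappa (HC (univ.image t) 5) 24 4 ≤ cnt (Val (star t) (FF1 t)) := by
    rw [kappa_eq]
    exact cnt_mono (fun D hD => kneser_val hD)
  have u2 := upper_N (star t) (star_card hg) (FF1 t)
  have u3 : (8 * ((FF1 t).card + 1)) ^ 24 ≤ 8200 ^ 24 := Nat.pow_le_pow_left (by omega) 24
  have l1 : cnt (Val (star (tp h8)) (FP h8 ∪ FT h8)) ≤
      kappa (HC (univ.image (tp h8)) 5) 24 4 := by
    rw [kappa_eq]
    exact cnt_mono (fun D hD => val_kneser h8 hD)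
  have l2 := lower_N (st := star (tp h8)) (FP h8 ∪ FT h8) (FPT_impure h8)
  have e := pure_eq (star_card hg) (star_card (tp_good h8))
  have hWp := FPT_sum h8
  have hNT : ∀ i : Fin 24, (0 : ℝ) ≤ (NT i : ℝ) := fun i => Nat.cast_nonneg _
  have hpos : (0 : ℝ) < 4374 ^ m := by positivity
  have hNT' : ∀ i : Fin 24, (0 : ℝ) ≤ (NT i : ℝ) * 4374 ^ m :=
    fun i => mul_nonneg (hNT i) hpos.le
  set N : ℝ := ∑ i : Fin 24, (NT i : ℝ) with hN
  have hN1 : 1 ≤ N := by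
    have h5 : (1 : ℝ) ≤ (NT 0 : ℝ) := by exact_mod_cast NT_pos 0
    refine le_trans h5 ?_
    rw [hN]
    exact single_le_sum (f := fun i : Fin 24 => (NT i : ℝ)) (fun i _ => Nat.cast_nonneg _)
      (mem_univ 0)
  set δ : ℝ := 1 - 24 * (2 / 3) ^ (m - 3) with hδ
  have hδ0 : 0 ≤ δ := by linarith
  -- upper bound
  have U : (kappa (HC (univ.image t) 5) 24 4 : ℝ) ≤ cnt (AllPure (star t)) +
      (N * 4374 ^ m * 157 + 24 * 1024 * 8 ^ 24 * 4206 ^ m) + 8200 ^ 24 * 3155 ^ m := by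
    have v1 : (kappa (HC (univ.image t) 5) 24 4 : ℝ) ≤ cnt (AllPure (star t)) +
        ∑ i, ∑ F ∈ FF1 t, (cnt (InX (star t) i F) : ℝ) + 8200 ^ 24 * 3155 ^ m := by
      have : kappa (HC (univ.image t) 5) 24 4 ≤ cnt (AllPure (star t)) +
        ∑ i, ∑ F ∈ FF1 t, (cnt (InX (star t) i F)) + 8200 ^ 24 * 3155 ^ m :=
        le_trans u1 (le_trans u2 (Nat.add_le_add_left (Nat.mul_le_mul_right _ u3) _))
      exact_mod_cast this
    refine le_trans v1 ?_
    have v2 : ∀ i, ∑ F ∈ FF1 t, (cnt (InX (star t) i F) : ℝ) ≤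
        NT i * 4374 ^ m * 157 + 1024 * 8 ^ 24 * 4206 ^ m := by
      intro i
      calc ∑ F ∈ FF1 t, (cnt (InX (star t) i F) : ℝ)
          ≤ ∑ F ∈ FF1 t, (NT i * 4374 ^ m * W (star t) F + 8 ^ 24 * 4206 ^ m) :=
            sum_le_sum (fun F _ => upper_X (star t) (star_card hg) i F)
        _ = NT i * 4374 ^ m * ∑ F ∈ FF1 t, W (star t) F +
            (FF1 t).card * (8 ^ 24 * 4206 ^ m) := by
            rw [sum_add_distrib, ← mul_sum, sum_const, nsmul_eq_mul]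
        _ ≤ NT i * 4374 ^ m * 157 + 1024 * (8 ^ 24 * 4206 ^ m) := by
            have hc' : ((FF1 t).card : ℝ) ≤ 1024 := by exact_mod_cast hc
            apply add_le_add
            · exact mul_le_mul_of_nonneg_left hW (hNT' i)
            · exact mul_le_mul_of_nonneg_right hc' (by positivity)
        _ = _ := by ring
    have v3 : ∑ i, ∑ F ∈ FF1 t, (cnt (InX (star t) i F) : ℝ) ≤
        N * 4374 ^ m * 157 + 24 * 1024 * 8 ^ 24 * 4206 ^ m := by
      calc _ ≤ ∑ i : Fin 24, ((NT i : ℝ) * 4374 ^ m * 157 + 1024 * 8 ^ 24 * 4206 ^ m) :=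
            sum_le_sum (fun i _ => v2 i)
        _ = _ := by
            rw [sum_add_distrib, sum_const, card_univ, Fintype.card_fin, ← sum_mul, ← sum_mul,
              ← hN, nsmul_eq_mul]
            push_cast
            ring
    linarith
  -- lower bound
  have L : (cnt (AllPure (star (tp h8))) : ℝ) + N * 4374 ^ m * 179 * δ ≤
      kappa (HC (univ.image (tp h8)) 5) 24 4 := by
    have v1 : (cnt (AllPure (star (tp h8))) : ℝ) +
        ∑ i, ∑ F ∈ FP h8 ∪ FT h8, (cnt (InX (star (tp h8)) i F) : ℝ) ≤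
        kappa (HC (univ.image (tp h8)) 5) 24 4 := by
      exact_mod_cast le_trans l2 l1
    refine le_trans ?_ v1
    have v2 : ∀ i, (NT i : ℝ) * 4374 ^ m * 179 * δ ≤
        ∑ F ∈ FP h8 ∪ FT h8, (cnt (InX (star (tp h8)) i F) : ℝ) := by
      intro i
      calc (NT i : ℝ) * 4374 ^ m * 179 * δ
          ≤ (NT i : ℝ) * 4374 ^ m * (∑ F ∈ FP h8 ∪ FT h8, W (star (tp h8)) F) * δ := by
            apply mul_le_mul_of_nonneg_right _ hδ0
            exact mul_le_mul_of_nonneg_left hWp (hNT' i)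
        _ = ∑ F ∈ FP h8 ∪ FT h8, ((NT i : ℝ) * 4374 ^ m * W (star (tp h8)) F * δ) := by
            rw [mul_sum, sum_mul]
        _ ≤ _ := by
            apply sum_le_sum
            intro F hF
            apply lower_X (star (tp h8)) (star_card (tp_good h8)) i
            rcases mem_union.mp hF with h | h
            · rw [FP_two h8 h]; norm_num
            · rw [FT_three h8 h]
    have v3 : N * 4374 ^ m * 179 * δ ≤
        ∑ i, ∑ F ∈ FP h8 ∪ FT h8, (cnt (InX (star (tp h8)) i F) : ℝ) := by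
      refine le_trans (le_of_eq ?_) (sum_le_sum (fun i _ => v2 i))
      rw [← sum_mul, ← sum_mul, ← sum_mul]
    linarith
  rw [← e] at L
  have key : (kappa (HC (univ.image t) 5) 24 4 : ℝ) < kappa (HC (univ.image (tp h8)) 5) 24 4 := by
    have h5 : (4374 : ℝ) ^ m ≤ N * 4374 ^ m * (179 * δ - 157) := by
      calc (4374 : ℝ) ^ m = 1 * 4374 ^ m * 1 := by ring
        _ ≤ N * 4374 ^ m * (179 * δ - 157) := by
            have hq : 1 * (4374 : ℝ) ^ m ≤ N * 4374 ^ m := mul_le_mul_of_nonneg_right hN1 hpos.le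
            exact mul_le_mul hq hn2 (by norm_num) (le_trans (by positivity) hq)
    have h6 : N * 4374 ^ m * (179 * δ - 157) = N * 4374 ^ m * 179 * δ - N * 4374 ^ m * 157 := by
      ring
    rw [h6] at h5
    linarith only [U, L, h5, hn1]
  exact_mod_cast key

theorem HC_uniform {n : ℕ} (C : Finset (Finset (Fin n))) (r : ℕ) : IsUniform r (HC C r) :=
  fun _ he => (mem_HC.mp he).1

/-- Every extremal hypergraph for `k = 24`, `l = 4`, `r = 5` is `(C, 5)`-complete with `|C| = 8`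
and has two members of `C` whose intersection does not have `2` elements. -/
theorem main : ∃ N : ℕ, ∀ n, N ≤ n → ∀ H : HG n, IsUniform 5 H → kappa H 24 4 = KC n 5 24 4 →
    ∃ C : Finset (Finset (Fin n)), (∀ t ∈ C, t.card = 4) ∧ C.card = 8 ∧ H = HC C 5 ∧
      ∃ t ∈ C, ∃ t' ∈ C, t ≠ t' ∧ (t ∩ t').card ≠ 2 := by
  have E1 := (ev_num1 (24 * 1024 * 8 ^ 24) (8200 ^ 24)).and ev_num2
  have E2 := (tendsto_sub_atTop_nat 4).eventually E1
  have E3 := ev_num3 (24 ^ 576)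
  obtain ⟨N, hN⟩ := eventually_atTop.mp (E2.and (E3.and (eventually_ge_atTop 8)))
  refine ⟨N, ?_⟩
  intro n hn H hU hK
  obtain ⟨⟨hn1, hn2⟩, hn3, h8⟩ := hN n hn
  have hmax : ∀ H' : HG n, IsUniform 5 H' → kappa H' 24 4 ≤ kappa H 24 4 := by
    intro H' h'
    rw [hK]
    exact kappa_le_KC (by norm_num) h'
  have hlow := le_trans (kappa_tp_lower h8) (hmax _ (HC_uniform _ _))
  obtain ⟨C, hC4, hC8, hHC⟩ := structure_thm hU hmax
    (lt_of_lt_of_le hn3 (Nat.mul_le_mul_left 2 hlow))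
  refine ⟨C, hC4, hC8, hHC, ?_⟩
  by_contra hcon
  push Not at hcon
  set eq := C.equivFinOfCardEq hC8 with heq
  set t : Fin 8 → Finset (Fin n) := fun i => (eq.symm i).1 with ht
  have himg : univ.image t = C := by
    ext x
    rw [mem_image]
    constructor
    · rintro ⟨i, _, rfl⟩
      exact (eq.symm i).2
    · intro hx
      refine ⟨eq ⟨x, hx⟩, mem_univ _, ?_⟩
      simp [ht]
  have hinj : Function.Injective t := by
    intro i j hij
    exact eq.symm.injective (Subtype.ext hij)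
  have h9 := compare h8 hn1 hn2 (t := t) (fun i => hC4 _ (eq.symm i).2)
    (fun i j hij => hcon _ (eq.symm i).2 _ (eq.symm j).2 (fun h => hij (hinj h)))
  rw [himg, ← hHC] at h9
  exact absurd (hmax _ (HC_uniform _ _)) (not_le.mpr h9)

end Q43.Kn
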