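import Pool.Agent.Q43.Kn.Struct
import Pool.Agent.Q43.Kn.Count2
import Pool.Agent.Q43.Kn.Fin32

/-!
Systems of eight stars: the sunflower and the eight planes.
-/

set_option linter.unusedSectionVars false
set_option linter.unusedVariables false
set_option maxRecDepth 20000

namespace Q43.Kn
open Finset
open Q43.Ko (cnt filter_cnt cnt_mono cnt_or cnt_false)

variable {n : ℕ}

/-- Eight `4`-sets pairwise meeting in at most two points. -/
structure Good (t : Fin 8 → Finset (Fin n)) : Prop where
  c4 : ∀ i, (t i).card = 4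
  i2 : ∀ i j, i ≠ j → (t i ∩ t j).card ≤ 2

/-- The hyperedges. -/
abbrev ET (t : Fin 8 → Finset (Fin n)) : Type := {e // e ∈ HC (univ.image t) 5}

lemma exists_star {t : Fin 8 → Finset (Fin n)} (e : ET t) : ∃ j, t j ⊆ e.1 := by
  obtain ⟨_, u, hu, h⟩ := mem_HC.mp e.2
  obtain ⟨j, _, rfl⟩ := mem_image.mp hu
  exact ⟨j, h⟩

lemma ET_card {t : Fin 8 → Finset (Fin n)} (e : ET t) : e.1.card = 5 := (mem_HC.mp e.2).1

noncomputable def star (t : Fin 8 → Finset (Fin n)) (e : ET t) : Fin 8 := (exists_star e).choose

lemma star_sub {t : Fin 8 → Finset (Fin n)} (e : ET t) : t (star t e) ⊆ e.1 :=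
  (exists_star e).choose_spec

lemma star_eq {t : Fin 8 → Finset (Fin n)} (hg : Good t) {e : ET t} {j : Fin 8}
    (h : t j ⊆ e.1) : star t e = j := by
  by_contra hne
  have h1 := hg.i2 _ _ hne
  have h2 := card_union_add_card_inter (t (star t e)) (t j)
  have h3 := card_le_card (union_subset (star_sub e) h)
  rw [hg.c4, hg.c4] at h2
  rw [ET_card] at h3
  omega

lemma star_card {t : Fin 8 → Finset (Fin n)} (hg : Good t) (j : Fin 8) :
    (univ.filter (fun e => star t e = j)).card = n - 4 := by
  classical
  have h1 : ((t j)ᶜ).card = n - 4 := by rw [card_compl, Fintype.card_fin, hg.c4]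
  rw [← h1]
  symm
  have hmem : ∀ x ∈ (t j)ᶜ, insert x (t j) ∈ HC (univ.image t) 5 := by
    intro x hx
    rw [mem_compl] at hx
    rw [mem_HC]
    exact ⟨by rw [card_insert_of_notMem hx, hg.c4], t j, mem_image_of_mem _ (mem_univ _),
      subset_insert _ _⟩
  apply card_bij (fun x hx => (⟨insert x (t j), hmem x hx⟩ : ET t))
  · intro x hx
    rw [mem_filter]
    exact ⟨mem_univ _, star_eq hg (subset_insert _ _)⟩
  · intro x hx y hy h
    rw [Subtype.mk.injEq] at h
    rw [mem_compl] at hx hy
    have : x ∈ insert y (t j) := h ▸ mem_insert_self x (t j)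
    rcases mem_insert.mp this with h' | h'
    · exact h'
    · exact absurd h' hx
  · intro e he
    rw [mem_filter] at he
    have hsub : t j ⊆ e.1 := he.2 ▸ star_sub e
    have h2 : (e.1 \ t j).card = 1 := by rw [card_sdiff_of_subset hsub, ET_card, hg.c4]
    obtain ⟨x, hx⟩ := card_eq_one.mp h2
    have h3 : x ∈ e.1 \ t j := by rw [hx]; simp
    rw [mem_sdiff] at h3
    refine ⟨x, mem_compl.mpr h3.2, ?_⟩
    apply Subtype.ext
    apply eq_of_subset_of_card_le
    · intro z hz
      rcases mem_insert.mp hz with rfl | hz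
      · exact h3.1
      · exact hsub hz
    · rw [ET_card, card_insert_of_notMem h3.2, hg.c4]

/-- Compatible edges of distinct stars. -/
lemma compat {a b e f : Finset (Fin n)} (ha : a.card = 4) (hb : b.card = 4)
    (hab : (a ∩ b).card ≤ 2) (he : e.card = 5) (hf : f.card = 5) (hae : a ⊆ e) (hbf : b ⊆ f)
    (h : 4 ≤ (e ∩ f).card) : e ⊆ a ∪ b := by
  have h1 : (e \ a).card = 1 := by rw [card_sdiff_of_subset hae, he, ha]
  have h2 : (f \ b).card = 1 := by rw [card_sdiff_of_subset hbf, hf, hb]
  obtain ⟨x, hx⟩ := card_eq_one.mp h1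
  obtain ⟨y, hy⟩ := card_eq_one.mp h2
  have hex : ∀ z, z ∈ e → z ∈ a ∨ z = x := by
    intro z hz
    by_cases hza : z ∈ a
    · exact Or.inl hza
    · right
      have : z ∈ e \ a := mem_sdiff.mpr ⟨hz, hza⟩
      rw [hx] at this
      exact mem_singleton.mp this
  have hfy : ∀ z, z ∈ f → z ∈ b ∨ z = y := by
    intro z hz
    by_cases hza : z ∈ b
    · exact Or.inl hza
    · right
      have : z ∈ f \ b := mem_sdiff.mpr ⟨hz, hza⟩
      rw [hy] at this
      exact mem_singleton.mp this
  have hxa : x ∉ a := by
    have : x ∈ e \ a := by rw [hx]; simp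
    exact (mem_sdiff.mp this).2
  have hxb : x ∈ b := by
    by_contra hxb
    -- then e ∩ f is contained in (a ∩ b) with y, or with x = y
    by_cases hxy : x = y
    · have hsub : e ∩ f ⊆ insert x (a ∩ b) := by
        intro z hz
        rw [mem_inter] at hz
        rw [mem_insert, mem_inter]
        rcases hex z hz.1 with h3 | h3
        · rcases hfy z hz.2 with h4 | h4
          · exact Or.inr ⟨h3, h4⟩
          · exact Or.inl (h4.trans hxy.symm)
        · exact Or.inl h3
      have h5 := card_le_card hsub
      have h6 := card_insert_le x (a ∩ b)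
      omega
    · have hsub : e ∩ f ⊆ insert y (a ∩ b) := by
        intro z hz
        rw [mem_inter] at hz
        rw [mem_insert, mem_inter]
        rcases hfy z hz.2 with h4 | h4
        · rcases hex z hz.1 with h3 | h3
          · exact Or.inr ⟨h3, h4⟩
          · rw [h3] at h4; exact absurd h4 hxb
        · exact Or.inl h4
      have h5 := card_le_card hsub
      have h6 := card_insert_le y (a ∩ b)
      omega
  intro z hz
  rw [mem_union]
  rcases hex z hz with h3 | h3
  · exact Or.inl h3
  · rw [h3]; exact Or.inr hxb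

/-- Eight `4`-sets pairwise meeting in exactly two points form a sunflower. -/
lemma sunflower {t : Fin 8 → Finset (Fin n)} (h4 : ∀ i, (t i).card = 4)
    (h2 : ∀ i j, i ≠ j → (t i ∩ t j).card = 2) (i j k : Fin 8) (hj : j ≠ i) (hk : k ≠ i) :
    t i ∩ t j = t i ∩ t k := by
  classical
  -- three sets with the same trace on `t i`
  obtain ⟨v, hv⟩ := card_pos.mp (show 0 < (t i).card by rw [h4]; omega)
  set κ : Fin 8 → Finset (Fin n) := fun l => if v ∈ t l then t i ∩ t l else t i \ t l with hκ
  have hκc : ∀ l, l ≠ i → (κ l).card = 2 ∧ v ∈ κ l ∧ κ l ⊆ t i := by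
    intro l hl
    simp only [hκ]
    have h5 := h2 i l (Ne.symm hl)
    split_ifs with hvl
    · exact ⟨h5, mem_inter.mpr ⟨hv, hvl⟩, inter_subset_left⟩
    · refine ⟨?_, mem_sdiff.mpr ⟨hv, hvl⟩, sdiff_subset⟩
      have := card_sdiff_add_card_inter (t i) (t l)
      rw [h4] at this
      omega
  set Z : Finset (Finset (Fin n)) := ((t i).erase v).image (fun w => {v, w}) with hZ
  have hZc : Z.card ≤ 3 := by
    refine le_trans card_image_le ?_
    rw [card_erase_of_mem hv, h4]
  have hmaps : ∀ l ∈ univ.erase i, κ l ∈ Z := by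
    intro l hl
    obtain ⟨h5, h6, h7⟩ := hκc l (ne_of_mem_erase hl)
    have h8 : ((κ l).erase v).card = 1 := by rw [card_erase_of_mem h6, h5]
    obtain ⟨w, hw⟩ := card_eq_one.mp h8
    have hw' : w ∈ (κ l).erase v := by rw [hw]; simp
    rw [mem_erase] at hw'
    rw [hZ, mem_image]
    refine ⟨w, mem_erase.mpr ⟨hw'.1, h7 hw'.2⟩, ?_⟩
    rw [← insert_erase h6, hw]
  have hpig : Z.card * 2 < (univ.erase i).card := by
    rw [card_erase_of_mem (mem_univ _), card_univ, Fintype.card_fin]
    omega
  obtain ⟨y, _, hy⟩ := exists_lt_card_fiber_of_mul_lt_card_of_maps_to hmaps hpig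
  obtain ⟨l1, hl1, l2, hl2, l3, hl3, h12, h13, h23⟩ := two_lt_card.mp hy
  rw [mem_filter] at hl1 hl2 hl3
  have hi1 := ne_of_mem_erase hl1.1
  have hi2 := ne_of_mem_erase hl2.1
  have hi3 := ne_of_mem_erase hl3.1
  -- tails
  have hq : ∀ l, l ≠ i → (t l \ t i).card = 2 := by
    intro l hl
    have := card_sdiff_add_card_inter (t l) (t i)
    have h5 := h2 l i hl
    rw [h4] at this
    omega
  -- decomposition of intersections
  have hdec : ∀ l m, (t l ∩ t m).card
      = ((t i ∩ t l) ∩ (t i ∩ t m)).card + ((t l \ t i) ∩ (t m \ t i)).card := by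
    intro l m
    rw [← card_union_of_disjoint]
    · congr 1
      ext z
      simp only [mem_inter, mem_union, mem_sdiff]
      tauto
    · rw [disjoint_left]
      intro z hz hz'
      simp only [mem_inter, mem_sdiff] at hz hz'
      exact hz'.1.2 hz.1.1
  have hsame : ∀ l m, l ≠ i → m ≠ i → l ≠ m → t i ∩ t l = t i ∩ t m →
      Disjoint (t l \ t i) (t m \ t i) := by
    intro l m hl hm hlm heq
    have h5 := hdec l m
    rw [h2 l m hlm, heq, inter_self, h2 i m (Ne.symm hm)] at h5
    rw [disjoint_iff_inter_eq_empty, ← card_eq_zero]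
    omega
  have hopp : ∀ l m, l ≠ i → m ≠ i → l ≠ m → Disjoint (t i ∩ t l) (t i ∩ t m) →
      t l \ t i = t m \ t i := by
    intro l m hl hm hlm hdj
    have h5 := hdec l m
    rw [h2 l m hlm, disjoint_iff_inter_eq_empty.mp hdj, card_empty] at h5
    have h6 : (t l \ t i) ∩ (t m \ t i) = t l \ t i :=
      eq_of_subset_of_card_le inter_subset_left (by rw [hq l hl]; omega)
    have h7 : (t l \ t i) ∩ (t m \ t i) = t m \ t i :=
      eq_of_subset_of_card_le inter_subset_right (by rw [hq m hm]; omega)
    exact h6.symm.trans h7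
  -- same class: same trace or disjoint traces
  have hcls : ∀ l m, l ≠ i → m ≠ i → κ l = κ m →
      t i ∩ t l = t i ∩ t m ∨ Disjoint (t i ∩ t l) (t i ∩ t m) := by
    intro l m hl hm hlm
    simp only [hκ] at hlm
    by_cases hvl : v ∈ t l
    · by_cases hvm : v ∈ t m
      · left; rw [if_pos hvl, if_pos hvm] at hlm; exact hlm
      · right
        rw [if_pos hvl, if_neg hvm] at hlm
        rw [hlm, disjoint_left]
        intro z hz hz'
        exact (mem_sdiff.mp hz).2 (mem_inter.mp hz').2
    · by_cases hvm : v ∈ t m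
      · right
        rw [if_neg hvl, if_pos hvm] at hlm
        rw [← hlm, disjoint_left]
        intro z hz hz'
        exact (mem_sdiff.mp hz').2 (mem_inter.mp hz).2
      · left
        rw [if_neg hvl, if_neg hvm] at hlm
        ext z
        simp only [mem_inter]
        constructor
        · rintro ⟨h5, h6⟩
          refine ⟨h5, ?_⟩
          by_contra h7
          have : z ∈ t i \ t l := by rw [hlm]; exact mem_sdiff.mpr ⟨h5, h7⟩
          exact (mem_sdiff.mp this).2 h6
        · rintro ⟨h5, h6⟩
          refine ⟨h5, ?_⟩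
          by_contra h7
          have : z ∈ t i \ t m := by rw [← hlm]; exact mem_sdiff.mpr ⟨h5, h7⟩
          exact (mem_sdiff.mp this).2 h6
  have hnonempty : ∀ l, l ≠ i → ¬ Disjoint (t l \ t i) (t l \ t i) := by
    intro l hl h
    rw [disjoint_self_iff_empty] at h
    have := hq l hl
    rw [h] at this
    simp at this
  -- two of the three with opposite traces is impossible
  have key : ∀ a b c, a ≠ i → b ≠ i → c ≠ i → a ≠ b → a ≠ c → b ≠ c → κ a = κ b → κ a = κ c →
      t i ∩ t a = t i ∩ t b := by
    intro a b c ha hb hc hab hac hbc h5 h6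
    rcases hcls a b ha hb h5 with h7 | h7
    · exact h7
    · exfalso
      have h8 := hopp a b ha hb hab h7
      rcases hcls a c ha hc h6 with h9 | h9
      · have h10 : Disjoint (t i ∩ t b) (t i ∩ t c) := by rw [← h9]; exact h7.symm
        have h11 := hopp b c hb hc hbc h10
        have h12 := hsame a c ha hc hac h9
        rw [h8, h11] at h12
        exact hnonempty c hc h12
      · have h10 := hopp a c ha hc hac h9
        have h13 : t i ∩ t b = t i ∩ t c := by
          rcases hcls b c hb hc (h5.symm.trans h6) with h14 | h14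
          · exact h14
          · exfalso
            -- three pairwise disjoint 2-subsets of a 4-set
            have h15 : ((t i ∩ t a) ∪ ((t i ∩ t b) ∪ (t i ∩ t c))).card ≤ 4 := by
              rw [← h4 i]
              apply card_le_card
              exact union_subset inter_subset_left (union_subset inter_subset_left
                inter_subset_left)
            rw [card_union_of_disjoint (disjoint_union_right.mpr ⟨h7, h9⟩),
              card_union_of_disjoint h14, h2 i a (Ne.symm ha), h2 i b (Ne.symm hb),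
              h2 i c (Ne.symm hc)] at h15
            omega
        have h12 := hsame b c hb hc hbc h13
        rw [← h8, ← h10] at h12
        exact hnonempty a ha h12
  have e12 := key l1 l2 l3 hi1 hi2 hi3 h12 h13 h23 (hl1.2.trans hl2.2.symm)
    (hl1.2.trans hl3.2.symm)
  have e13 := key l1 l3 l2 hi1 hi3 hi2 h13 h12 (Ne.symm h23) (hl1.2.trans hl3.2.symm)
    (hl1.2.trans hl2.2.symm)
  have d12 := hsame l1 l2 hi1 hi2 h12 e12
  have d13 := hsame l1 l3 hi1 hi3 h13 e13
  have d23 := hsame l2 l3 hi2 hi3 h23 (e12.symm.trans e13)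
  -- every other trace is the same
  have hall : ∀ l, l ≠ i → t i ∩ t l = t i ∩ t l1 := by
    intro l hl
    by_contra hne
    have hl1' : l ≠ l1 := fun h => hne (by rw [h])
    have hl2' : l ≠ l2 := fun h => hne (by rw [h, e12])
    have hl3' : l ≠ l3 := fun h => hne (by rw [h, e13])
    have hlt : ((t i ∩ t l) ∩ (t i ∩ t l1)).card ≤ 1 := by
      by_contra hc
      have h5 : (t i ∩ t l) ∩ (t i ∩ t l1) = t i ∩ t l :=
        eq_of_subset_of_card_le inter_subset_left (by rw [h2 i l (Ne.symm hl)]; omega)
      have h6 : (t i ∩ t l) ∩ (t i ∩ t l1) = t i ∩ t l1 :=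
        eq_of_subset_of_card_le inter_subset_right (by rw [h2 i l1 (Ne.symm hi1)]; omega)
      exact hne (h5.symm.trans h6)
    have g1 := hdec l l1
    have g2 := hdec l l2
    have g3 := hdec l l3
    rw [h2 l l1 hl1'] at g1
    rw [h2 l l2 hl2', ← e12] at g2
    rw [h2 l l3 hl3', ← e13] at g3
    have h7 : (((t l \ t i) ∩ (t l1 \ t i)) ∪ (((t l \ t i) ∩ (t l2 \ t i)) ∪
        ((t l \ t i) ∩ (t l3 \ t i)))).card ≤ 2 := by
      rw [← hq l hl]
      apply card_le_card
      exact union_subset inter_subset_left (union_subset inter_subset_left inter_subset_left)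
    rw [card_union_of_disjoint, card_union_of_disjoint] at h7
    · omega
    · exact disjoint_of_subset_left inter_subset_right
        (disjoint_of_subset_right inter_subset_right d23)
    · rw [disjoint_union_right]
      exact ⟨disjoint_of_subset_left inter_subset_right
        (disjoint_of_subset_right inter_subset_right d12),
        disjoint_of_subset_left inter_subset_right
        (disjoint_of_subset_right inter_subset_right d13)⟩
  rw [hall j hj, hall k hk]

end Q43.Kn
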