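import Pool.Agent.Q43.Kn.Clique
import Pool.Agent.Q43.Ko.Prob

/-!
Kneser colorings: definitions and the structure of extremal hypergraphs for `k = 24`, `l = 4`,
`r = 5`.
-/

set_option linter.unusedSectionVars false
set_option linter.unusedVariables false

namespace Q43.Kn
open Finset
open Q43.Ko (cnt filter_cnt cnt_mono cnt_or cnt_false)

variable {n : ℕ}

/-- A hypergraph on `Fin n`, given by its set of hyperedges. -/
abbrev HG (n : ℕ) : Type := Finset (Finset (Fin n))

/-- All hyperedges have `r` elements. -/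
def IsUniform (r : ℕ) (H : HG n) : Prop := ∀ e ∈ H, e.card = r

/-- `(k, l)`-Kneser colorings. -/
def IsKneser {k : ℕ} (l : ℕ) (H : HG n) (D : {e // e ∈ H} → Fin k) : Prop :=
  ∀ e f : {e // e ∈ H}, D e = D f → l ≤ (e.1 ∩ f.1).card

/-- The number of `(k, l)`-Kneser colorings of `H`. -/
noncomputable def kappa (H : HG n) (k l : ℕ) : ℕ :=
  Nat.card {D : {e // e ∈ H} → Fin k // IsKneser l H D}

/-- The maximum of `kappa H k l` over the `r`-uniform hypergraphs on `Fin n`. -/
noncomputable def KC (n r k l : ℕ) : ℕ :=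
  sSup {m | ∃ H : HG n, IsUniform r H ∧ kappa H k l = m}

open Classical in
/-- The `(C, r)`-complete hypergraph. -/
noncomputable def HC (C : Finset (Finset (Fin n))) (r : ℕ) : HG n :=
  univ.filter (fun e => e.card = r ∧ ∃ t ∈ C, t ⊆ e)

lemma mem_HC {C : Finset (Finset (Fin n))} {r : ℕ} {e : Finset (Fin n)} :
    e ∈ HC C r ↔ e.card = r ∧ ∃ t ∈ C, t ⊆ e := by simp [HC]

lemma kappa_eq (H : HG n) (k l : ℕ) : kappa H k l = cnt (IsKneser (k := k) l H) := by
  classical
  rw [kappa, Nat.card_eq_fintype_card, Fintype.card_subtype, filter_cnt]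

section
variable {E : Type*} [Fintype E] [DecidableEq E] (v : E → Finset (Fin n))

/-- The colours with a big class. -/
noncomputable def big (c : Fin 24 → Finset (Fin n) × Finset E) : Finset (Fin 24) :=
  univ.filter (fun i => (c i).1.card = 4)

noncomputable def UU (c : Fin 24 → Finset (Fin n) × Finset E) : Finset (Finset (Fin n)) :=
  (big c).image (fun i => (c i).1)

noncomputable def sm (c : Fin 24 → Finset (Fin n) × Finset E) (u : Finset (Fin n)) : ℕ :=
  ((big c).filter (fun i => (c i).1 = u)).card

open Classical in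
noncomputable def allowed (c : Fin 24 → Finset (Fin n) × Finset E) (e : E) : Finset (Fin 24) :=
  if h : ∃ i, e ∈ (c i).2 then {h.choose} else (big c).filter (fun i => (c i).1 ⊆ v e)

lemma sm_pos {c : Fin 24 → Finset (Fin n) × Finset E} {u : Finset (Fin n)} (h : u ∈ UU c) :
    1 ≤ sm c u := by
  obtain ⟨i, hi, rfl⟩ := mem_image.mp h
  exact card_pos.mpr ⟨i, mem_filter.mpr ⟨hi, rfl⟩⟩

lemma sm_le (c : Fin 24 → Finset (Fin n) × Finset E) (u : Finset (Fin n)) : sm c u ≤ 24 := by
  have := card_le_univ ((big c).filter (fun i => (c i).1 = u))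
  simpa [sm] using this

lemma UU_card {c : Fin 24 → Finset (Fin n) × Finset E} {u : Finset (Fin n)} (h : u ∈ UU c) :
    u.card = 4 := by
  obtain ⟨i, hi, rfl⟩ := mem_image.mp h
  exact (mem_filter.mp hi).2

lemma card_UU (c : Fin 24 → Finset (Fin n) × Finset E) : (UU c).card ≤ 24 := by
  refine le_trans card_image_le ?_
  have := card_le_univ (big c)
  simpa using this

lemma card_allowed (c : Fin 24 → Finset (Fin n) × Finset E) (e : E) :
    (allowed v c e).card ≤
      (if 2 ≤ ((UU c).filter (fun u => u ⊆ v e)).card then 24 else 1) *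
        ∏ u ∈ (UU c).filter (fun u => u ⊆ v e), sm c u := by
  have hprod : 1 ≤ ∏ u ∈ (UU c).filter (fun u => u ⊆ v e), sm c u :=
    Finset.one_le_prod' (fun u hu => sm_pos (mem_filter.mp hu).1)
  rw [allowed]
  split_ifs with h h2 h2
  · rw [card_singleton]; omega
  · rw [card_singleton]; omega
  · have h3 : ((big c).filter (fun i => (c i).1 ⊆ v e)).card ≤ 24 := by
      have := card_le_univ ((big c).filter (fun i => (c i).1 ⊆ v e))
      simpa using this
    calc ((big c).filter (fun i => (c i).1 ⊆ v e)).card ≤ 24 * 1 := by omega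
      _ ≤ _ := Nat.mul_le_mul_left _ hprod
  · rw [one_mul]
    rcases Nat.lt_or_ge ((UU c).filter (fun u => u ⊆ v e)).card 1 with h3 | h3
    · have h4 : (UU c).filter (fun u => u ⊆ v e) = ∅ := card_eq_zero.mp (by omega)
      have h5 : (big c).filter (fun i => (c i).1 ⊆ v e) = ∅ := by
        apply filter_eq_empty_iff.mpr
        intro i hi hie
        have : (c i).1 ∈ (UU c).filter (fun u => u ⊆ v e) :=
          mem_filter.mpr ⟨mem_image_of_mem _ hi, hie⟩
        rw [h4] at this
        exact absurd this (notMem_empty _)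
      rw [h5]; simp
    · obtain ⟨u, hu⟩ := card_eq_one.mp (show ((UU c).filter (fun u => u ⊆ v e)).card = 1 by omega)
      rw [hu, prod_singleton, sm]
      apply card_le_card
      intro i hi
      rw [mem_filter] at hi ⊢
      refine ⟨hi.1, ?_⟩
      have : (c i).1 ∈ (UU c).filter (fun u => u ⊆ v e) :=
        mem_filter.mpr ⟨mem_image_of_mem _ hi.1, hi.2⟩
      rw [hu] at this
      exact mem_singleton.mp this

lemma card_E2 (hv : Function.Injective v) (h5 : ∀ e, (v e).card = 5)
    (c : Fin 24 → Finset (Fin n) × Finset E) :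
    (univ.filter (fun e : E => 2 ≤ ((UU c).filter (fun u => u ⊆ v e)).card)).card ≤ 576 := by
  rw [← card_image_of_injective _ hv]
  have hsub : (univ.filter (fun e : E => 2 ≤ ((UU c).filter (fun u => u ⊆ v e)).card)).image v ⊆
      (UU c ×ˢ UU c).image (fun p => p.1 ∪ p.2) := by
    intro x hx
    obtain ⟨e, he, rfl⟩ := mem_image.mp hx
    rw [mem_filter] at he
    obtain ⟨u, hu, u', hu', hne⟩ := one_lt_card.mp (show 1 < _ from he.2)
    rw [mem_filter] at hu hu'
    refine mem_image.mpr ⟨(u, u'), mem_product.mpr ⟨hu.1, hu'.1⟩, ?_⟩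
    apply eq_of_subset_of_card_le (union_subset hu.2 hu'.2)
    rw [h5 e]
    by_contra hcon
    have h1 : (u ∪ u').card ≤ 4 := by omega
    have h2 : u = u ∪ u' := eq_of_subset_of_card_le subset_union_left (by
      rw [UU_card hu.1]; exact h1)
    have h3 : u' = u ∪ u' := eq_of_subset_of_card_le subset_union_right (by
      rw [UU_card hu'.1]; exact h1)
    exact hne (h2.trans h3.symm)
  refine le_trans (card_le_card hsub) (le_trans card_image_le ?_)
  rw [card_product]
  have := card_UU c
  calc (UU c).card * (UU c).card ≤ 24 * 24 := Nat.mul_le_mul this this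
    _ = 576 := by norm_num

lemma card_star (hv : Function.Injective v) (h5 : ∀ e, (v e).card = 5) {u : Finset (Fin n)}
    (hu : u.card = 4) : (univ.filter (fun e : E => u ⊆ v e)).card ≤ n := by
  rw [← card_image_of_injective _ hv]
  have hsub : (univ.filter (fun e : E => u ⊆ v e)).image v ⊆
      (univ : Finset (Fin n)).image (fun x => insert x u) := by
    intro x hx
    obtain ⟨e, he, rfl⟩ := mem_image.mp hx
    rw [mem_filter] at he
    have h1 : (v e \ u).card = 1 := by rw [card_sdiff_of_subset he.2, h5, hu]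
    obtain ⟨y, hy⟩ := card_eq_one.mp h1
    refine mem_image.mpr ⟨y, mem_univ _, ?_⟩
    have h2 : y ∈ v e \ u := by rw [hy]; simp
    rw [mem_sdiff] at h2
    apply eq_of_subset_of_card_le
    · intro z hz
      rcases mem_insert.mp hz with rfl | hz
      · exact h2.1
      · exact he.2 hz
    · rw [h5, card_insert_of_notMem h2.2, hu]
  refine le_trans (card_le_card hsub) (le_trans card_image_le ?_)
  simp

lemma prod_allowed (hv : Function.Injective v) (h5 : ∀ e, (v e).card = 5)
    (c : Fin 24 → Finset (Fin n) × Finset E) :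
    ∏ e : E, (allowed v c e).card ≤ 24 ^ 576 * (∏ u ∈ UU c, sm c u) ^ n := by
  calc ∏ e : E, (allowed v c e).card
      ≤ ∏ e : E, ((if 2 ≤ ((UU c).filter (fun u => u ⊆ v e)).card then 24 else 1) *
        ∏ u ∈ (UU c).filter (fun u => u ⊆ v e), sm c u) :=
        prod_le_prod' (fun e _ => card_allowed v c e)
    _ = (∏ e : E, (if 2 ≤ ((UU c).filter (fun u => u ⊆ v e)).card then 24 else 1)) *
        ∏ e : E, ∏ u ∈ (UU c).filter (fun u => u ⊆ v e), sm c u := prod_mul_distrib
    _ ≤ 24 ^ 576 * (∏ u ∈ UU c, sm c u) ^ n := by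
        apply Nat.mul_le_mul
        · rw [prod_ite, prod_const, prod_const_one, mul_one]
          exact Nat.pow_le_pow_right (by norm_num) (card_E2 v hv h5 c)
        · have e1 : ∏ e : E, ∏ u ∈ (UU c).filter (fun u => u ⊆ v e), sm c u
              = ∏ u ∈ UU c, (sm c u) ^ (univ.filter (fun e : E => u ⊆ v e)).card := by
            simp_rw [prod_filter]
            rw [prod_comm]
            apply prod_congr rfl
            intro u _
            rw [prod_ite, prod_const, prod_const_one, mul_one]
          rw [e1, ← prod_pow]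
          apply prod_le_prod'
          intro u hu
          exact Nat.pow_le_pow_right (sm_pos hu) (card_star v hv h5 (UU_card hu))

end

/-- Perfect colorings. -/
def Perf (H : HG n) (D : {e // e ∈ H} → Fin 24) (a : Fin 24 → Finset (Fin n)) : Prop :=
  (∀ i, (a i).card = 4) ∧ (∀ i, (univ.filter (fun j => a j = a i)).card = 3) ∧
  (∀ e, a (D e) ⊆ e.1) ∧ ∀ i, 7 ≤ (univ.filter (fun e => D e = i)).card

def IsPerf (H : HG n) (D : {e // e ∈ H} → Fin 24) : Prop := ∃ a, Perf H D a

lemma Perf.kneser {H : HG n} {D : {e // e ∈ H} → Fin 24} {a : Fin 24 → Finset (Fin n)}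
    (h : Perf H D a) : IsKneser 4 H D := by
  intro e f hef
  rw [← h.1 (D e)]
  apply card_le_card
  exact subset_inter (h.2.2.1 e) (hef ▸ h.2.2.1 f)

lemma cube_le : ∀ s < 25, s ^ 3 ≤ 3 ^ s := by decide
lemma cube_lt : ∀ s < 25, s ≠ 3 → 9 * s ^ 3 ≤ 8 * 3 ^ s := by decide

open Classical in
/-- Every non-perfect coloring has a code of small weight. -/
lemma exists_code {H : HG n} (hU : IsUniform 5 H) {D : {e // e ∈ H} → Fin 24}
    (hD : IsKneser 4 H D) (hnp : ¬ IsPerf H D) :
    ∃ c : Fin 24 → Finset (Fin n) × Finset {e // e ∈ H},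
      (∀ i, ((c i).1.card = 4 ∨ (c i).1 = ∅) ∧ (c i).2.card ≤ 6) ∧
      (∀ e, D e ∈ allowed (fun e : {e // e ∈ H} => e.1) c e) ∧
      9 * (∏ u ∈ UU c, sm c u) ^ 3 ≤ 8 * 3 ^ 24 := by
  have hex : ∀ i : Fin 24, ∃ u : Finset (Fin n), 7 ≤ (univ.filter (fun e => D e = i)).card →
      u.card = 4 ∧ ∀ e : {e // e ∈ H}, D e = i → u ⊆ e.1 := by
    intro i
    by_cases h7 : 7 ≤ (univ.filter (fun e => D e = i)).card
    · obtain ⟨u, hu, hue⟩ := clique ((univ.filter (fun e => D e = i)).image Subtype.val)
        (by
          intro e he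
          obtain ⟨x, _, rfl⟩ := mem_image.mp he
          exact hU _ x.2)
        (by
          intro e he f hf
          obtain ⟨x, hx, rfl⟩ := mem_image.mp he
          obtain ⟨y, hy, rfl⟩ := mem_image.mp hf
          exact hD x y ((mem_filter.mp hx).2.trans (mem_filter.mp hy).2.symm))
        (by rwa [card_image_of_injective _ Subtype.val_injective])
      exact ⟨u, fun _ => ⟨hu, fun e he => hue _ (mem_image_of_mem _
        (mem_filter.mpr ⟨mem_univ _, he⟩))⟩⟩
    · exact ⟨∅, fun h => absurd h h7⟩
  choose u hu using hex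
  set c : Fin 24 → Finset (Fin n) × Finset {e // e ∈ H} := fun i =>
    if 7 ≤ (univ.filter (fun e => D e = i)).card then (u i, ∅)
    else (∅, univ.filter (fun e => D e = i)) with hc
  have hc1 : ∀ i, 7 ≤ (univ.filter (fun e => D e = i)).card → c i = (u i, ∅) := by
    intro i hi; simp only [hc]; rw [if_pos hi]
  have hc2 : ∀ i, ¬ 7 ≤ (univ.filter (fun e => D e = i)).card →
      c i = (∅, univ.filter (fun e => D e = i)) := by
    intro i hi; simp only [hc]; rw [if_neg hi]
  refine ⟨c, ?_, ?_, ?_⟩
  · intro i
    by_cases h7 : 7 ≤ (univ.filter (fun e => D e = i)).card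
    · rw [hc1 i h7]
      exact ⟨Or.inl (hu i h7).1, by simp⟩
    · rw [hc2 i h7]
      exact ⟨Or.inr rfl, by
        show (univ.filter (fun e => D e = i)).card ≤ 6
        omega⟩
  · intro e
    rw [allowed]
    split_ifs with h
    · rw [mem_singleton]
      have h1 := h.choose_spec
      by_cases h7 : 7 ≤ (univ.filter (fun e => D e = h.choose)).card
      · rw [hc1 _ h7] at h1
        simp at h1
      · rw [hc2 _ h7] at h1
        exact (mem_filter.mp h1).2
    · push Not at h
      by_cases h7 : 7 ≤ (univ.filter (fun f => D f = D e)).card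
      · have h8 := hc1 _ h7
        rw [mem_filter, big, mem_filter, h8]
        exact ⟨⟨mem_univ _, (hu _ h7).1⟩, (hu _ h7).2 e rfl⟩
      · exfalso
        apply h (D e)
        rw [hc2 _ h7]
        exact mem_filter.mpr ⟨mem_univ _, rfl⟩
  · have hsum : (big c).card = ∑ x ∈ UU c, sm c x := card_eq_sum_card_image (fun i => (c i).1) (big c)
    have hbig : (big c).card ≤ 24 := by
      have := card_le_univ (big c)
      simpa using this
    have hprod : ∀ S : Finset (Finset (Fin n)), ∏ x ∈ S, (sm c x) ^ 3 ≤ 3 ^ (∑ x ∈ S, sm c x) := by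
      intro S
      rw [← prod_pow_eq_pow_sum]
      exact prod_le_prod' (fun x _ => cube_le _ (by have := sm_le c x; omega))
    rw [← prod_pow]
    by_cases h3 : ∃ x ∈ UU c, sm c x ≠ 3
    · obtain ⟨x, hx, hx3⟩ := h3
      rw [← mul_prod_erase (UU c) (fun x => sm c x ^ 3) hx]
      calc 9 * ((sm c x) ^ 3 * ∏ y ∈ (UU c).erase x, sm c y ^ 3)
          = (9 * (sm c x) ^ 3) * ∏ y ∈ (UU c).erase x, sm c y ^ 3 := by ring
        _ ≤ (8 * 3 ^ (sm c x)) * 3 ^ (∑ y ∈ (UU c).erase x, sm c y) :=
            Nat.mul_le_mul (cube_lt _ (by have := sm_le c x; omega) hx3) (hprod _)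
        _ = 8 * 3 ^ (sm c x + ∑ y ∈ (UU c).erase x, sm c y) := by rw [pow_add]; ring
        _ = 8 * 3 ^ (big c).card := by rw [add_sum_erase _ _ hx, hsum]
        _ ≤ 8 * 3 ^ 24 := Nat.mul_le_mul_left _ (Nat.pow_le_pow_right (by norm_num) hbig)
    · push Not at h3
      have h31 : (big c).card = 3 * (UU c).card := by
        rw [hsum, sum_congr rfl h3, sum_const, smul_eq_mul, mul_comm]
      rcases Nat.lt_or_ge (big c).card 24 with hlt | hge
      · have h21 : (big c).card ≤ 21 := by omega
        have h32 := hprod (UU c)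
        rw [← hsum] at h32
        calc 9 * ∏ x ∈ UU c, sm c x ^ 3 ≤ 9 * 3 ^ (big c).card := Nat.mul_le_mul_left _ h32
          _ ≤ 9 * 3 ^ 21 := Nat.mul_le_mul_left _ (Nat.pow_le_pow_right (by norm_num) h21)
          _ ≤ 8 * 3 ^ 24 := by norm_num
      · exfalso
        apply hnp
        have hall : big c = univ := by
          apply eq_univ_of_card
          simp; omega
        have hmem : ∀ i, 7 ≤ (univ.filter (fun e => D e = i)).card := by
          intro i
          by_contra h7
          have h8 : i ∈ big c := by rw [hall]; exact mem_univ _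
          rw [big, mem_filter, hc2 _ h7] at h8
          simp at h8
        refine ⟨fun i => (c i).1, ?_, ?_, ?_, hmem⟩
        · intro i
          have h8 : i ∈ big c := by rw [hall]; exact mem_univ _
          exact (mem_filter.mp h8).2
        · intro i
          have h8 : i ∈ big c := by rw [hall]; exact mem_univ _
          have h9 := h3 _ (mem_image_of_mem _ h8)
          rw [sm, hall] at h9
          exact h9
        · intro e
          show (c (D e)).1 ⊆ e.1
          rw [hc1 _ (hmem _)]
          exact (hu _ (hmem _)).2 e rfl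

lemma cube_root {x : ℕ} (h : 9 * x ^ 3 ≤ 8 * 3 ^ 24) : x ≤ 6309 := by
  by_contra hcon
  have h1 : 6310 ≤ x := by omega
  have h2 : 6310 ^ 3 ≤ x ^ 3 := Nat.pow_le_pow_left h1 3
  have h3 : 9 * 6310 ^ 3 ≤ 8 * 3 ^ 24 := le_trans (Nat.mul_le_mul_left _ h2) h
  norm_num at h3

/-- The number of codes for one colour is polynomial. -/
noncomputable def Kn (n : ℕ) : ℕ := (n ^ 4 + 1) * (7 * (n ^ 5 + 1) ^ 6)

theorem nonperf_bound {H : HG n} (hU : IsUniform 5 H) :
    cnt (fun D : {e // e ∈ H} → Fin 24 => IsKneser 4 H D ∧ ¬ IsPerf H D)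
      ≤ (Kn n) ^ 24 * (24 ^ 576 * 6309 ^ n) := by
  classical
  set E := {e // e ∈ H}
  set A4 : Finset (Finset (Fin n)) := powersetCard 4 univ ∪ {∅} with hA4
  set SM : Finset (Finset E) := (range 7).biUnion (fun j => powersetCard j univ) with hSM
  set KK : Finset (Finset (Fin n) × Finset E) := A4 ×ˢ SM with hKK
  have hEcard : Fintype.card E ≤ n ^ 5 := by
    have h1 : H ⊆ powersetCard 5 univ := by
      intro e he
      rw [mem_powersetCard]
      exact ⟨subset_univ _, hU e he⟩
    have h2 := card_le_card h1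
    rw [card_powersetCard, card_univ, Fintype.card_fin] at h2
    calc Fintype.card E = H.card := Fintype.card_coe H
      _ ≤ n.choose 5 := h2
      _ ≤ n ^ 5 := Nat.choose_le_pow n 5
  have hA4c : A4.card ≤ n ^ 4 + 1 := by
    refine le_trans (card_union_le _ _) ?_
    rw [card_powersetCard, card_univ, Fintype.card_fin, card_singleton]
    have := Nat.choose_le_pow n 4
    omega
  have hSMc : SM.card ≤ 7 * (n ^ 5 + 1) ^ 6 := by
    refine le_trans card_biUnion_le ?_
    calc ∑ j ∈ range 7, (powersetCard j (univ : Finset E)).card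
        ≤ ∑ _j ∈ range 7, (n ^ 5 + 1) ^ 6 := by
          apply sum_le_sum
          intro j hj
          rw [mem_range] at hj
          rw [card_powersetCard, card_univ]
          calc (Fintype.card E).choose j ≤ (Fintype.card E) ^ j := Nat.choose_le_pow _ _
            _ ≤ (n ^ 5 + 1) ^ j := Nat.pow_le_pow_left (by omega) _
            _ ≤ (n ^ 5 + 1) ^ 6 := Nat.pow_le_pow_right (by omega) (by omega)
      _ = 7 * (n ^ 5 + 1) ^ 6 := by rw [sum_const, card_range, smul_eq_mul]
  have hKKc : KK.card ≤ Kn n := by
    rw [hKK, card_product, Kn]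
    exact Nat.mul_le_mul hA4c hSMc
  set CD : Finset (Fin 24 → Finset (Fin n) × Finset E) :=
    (Fintype.piFinset (fun _ => KK)).filter (fun c => 9 * (∏ u ∈ UU c, sm c u) ^ 3 ≤ 8 * 3 ^ 24)
    with hCD
  have hCDc : CD.card ≤ (Kn n) ^ 24 := by
    refine le_trans (card_filter_le _ _) ?_
    rw [Fintype.card_piFinset, prod_const, card_univ, Fintype.card_fin]
    exact Nat.pow_le_pow_left hKKc _
  have hsub : univ.filter (fun D : E → Fin 24 => IsKneser 4 H D ∧ ¬ IsPerf H D) ⊆
      CD.biUnion (fun c => Fintype.piFinset (allowed (fun e : E => e.1) c)) := by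
    intro D hD
    rw [mem_filter] at hD
    obtain ⟨c, h1, h2, h3⟩ := exists_code hU hD.2.1 hD.2.2
    rw [mem_biUnion]
    refine ⟨c, ?_, Fintype.mem_piFinset.mpr h2⟩
    rw [hCD, mem_filter]
    refine ⟨?_, h3⟩
    rw [Fintype.mem_piFinset]
    intro i
    rw [hKK, mem_product]
    constructor
    · rw [hA4, mem_union, mem_powersetCard, mem_singleton]
      rcases (h1 i).1 with h | h
      · exact Or.inl ⟨subset_univ _, h⟩
      · exact Or.inr h
    · rw [hSM, mem_biUnion]
      exact ⟨(c i).2.card, mem_range.mpr (by have := (h1 i).2; omega),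
        mem_powersetCard.mpr ⟨subset_univ _, rfl⟩⟩
  rw [← filter_cnt (inst := fun D => Classical.propDecidable _)]
  refine le_trans (card_le_card (by
    intro D hD
    exact hsub (by simpa only [mem_filter] using hD))) (le_trans card_biUnion_le ?_)
  calc ∑ c ∈ CD, (Fintype.piFinset (allowed (fun e : E => e.1) c)).card
      ≤ ∑ _c ∈ CD, (24 ^ 576 * 6309 ^ n) := by
        apply sum_le_sum
        intro c hc
        rw [Fintype.card_piFinset]
        refine le_trans (prod_allowed (fun e : E => e.1) Subtype.val_injective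
          (fun e => hU _ e.2) c) ?_
        apply Nat.mul_le_mul_left
        apply Nat.pow_le_pow_left
        exact cube_root (mem_filter.mp hc).2
    _ = CD.card * (24 ^ 576 * 6309 ^ n) := by rw [sum_const, smul_eq_mul]
    _ ≤ (Kn n) ^ 24 * (24 ^ 576 * 6309 ^ n) := Nat.mul_le_mul_right _ hCDc

/-- All perfect colorings use the same stars. -/
lemma perf_unique {H : HG n} (hU : IsUniform 5 H) {D D' : {e // e ∈ H} → Fin 24}
    {a a' : Fin 24 → Finset (Fin n)} (h : Perf H D a) (h' : Perf H D' a') (i : Fin 24) :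
    ∃ j, a' j = a i := by
  classical
  by_contra hcon
  push Not at hcon
  -- the star of `a i` in `H`
  set S : Finset {e // e ∈ H} := univ.filter (fun e => a i ⊆ e.1) with hS
  have hS21 : 21 ≤ S.card := by
    have hsub : (univ.filter (fun j => a j = a i)).biUnion (fun j => univ.filter (fun e => D e = j))
        ⊆ S := by
      intro e he
      rw [mem_biUnion] at he
      obtain ⟨j, hj, he⟩ := he
      rw [mem_filter] at hj he
      rw [hS, mem_filter]
      refine ⟨mem_univ _, ?_⟩
      rw [← hj.2, ← he.2]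
      exact h.2.2.1 e
    have hc := card_le_card hsub
    rw [card_biUnion (by
      intro x _ y _ hxy
      change Disjoint _ _
      rw [disjoint_left]
      intro e he he'
      rw [mem_filter] at he he'
      exact hxy (he.2.symm.trans he'.2))] at hc
    have h1 : 7 * (univ.filter (fun j => a j = a i)).card ≤
        ∑ u ∈ univ.filter (fun j => a j = a i), (univ.filter (fun e => D e = u)).card := by
      rw [mul_comm, ← smul_eq_mul, ← sum_const]
      exact sum_le_sum (fun j _ => h.2.2.2 j)
    rw [h.2.1 i] at h1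
    omega
  -- each element of `S` is determined by a colour class representative of `a'`
  have himg : (univ.image a').card ≤ 8 := by
    have h1 : ∑ u ∈ univ.image a', (univ.filter (fun j => a' j = u)).card = 24 := by
      rw [← card_eq_sum_card_image a' univ]; simp
    have h2 : ∑ u ∈ univ.image a', (univ.filter (fun j => a' j = u)).card
        = ∑ _u ∈ univ.image a', 3 := by
      apply sum_congr rfl
      intro u hu
      obtain ⟨j, _, rfl⟩ := mem_image.mp hu
      exact h'.2.1 j
    rw [h2, sum_const, smul_eq_mul] at h1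
    omega
  have hsub2 : S.image Subtype.val ⊆ (univ.image a').image (fun u => a i ∪ u) := by
    intro x hx
    obtain ⟨e, he, rfl⟩ := mem_image.mp hx
    rw [hS, mem_filter] at he
    refine mem_image.mpr ⟨a' (D' e), mem_image_of_mem _ (mem_univ _), ?_⟩
    apply eq_of_subset_of_card_le (union_subset he.2 (h'.2.2.1 e))
    rw [hU _ e.2]
    by_contra hlt
    have h4 : (a i ∪ a' (D' e)).card ≤ 4 := by omega
    have h5 : a i = a i ∪ a' (D' e) := eq_of_subset_of_card_le subset_union_left (by
      rw [h.1 i]; exact h4)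
    have h6 : a' (D' e) = a i ∪ a' (D' e) := eq_of_subset_of_card_le subset_union_right (by
      rw [h'.1]; exact h4)
    exact hcon (D' e) (h6.trans h5.symm)
  have h7 := card_le_card hsub2
  rw [card_image_of_injective _ Subtype.val_injective] at h7
  have h8 : ((univ.image a').image (fun u => a i ∪ u)).card ≤ (univ.image a').card := card_image_le
  omega

lemma kappa_le_KC {H : HG n} {r k l : ℕ} (hk : 0 < k) (hU : IsUniform r H) :
    kappa H k l ≤ KC n r k l := by
  apply le_csSup
  · classical
    refine ⟨k ^ (Fintype.card (Finset (Fin n))), ?_⟩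
    rintro m ⟨H', _, rfl⟩
    rw [kappa_eq, ← filter_cnt (inst := fun D => Classical.propDecidable _)]
    refine le_trans (card_le_univ _) ?_
    rw [Fintype.card_fun, Fintype.card_fin]
    apply Nat.pow_le_pow_right hk
    exact Fintype.card_subtype_le _
  · exact ⟨H, hU, rfl⟩

lemma exists_KC {n r k l : ℕ} (hk : 0 < k) :
    ∃ H : HG n, IsUniform r H ∧ kappa H k l = KC n r k l := by
  have : KC n r k l ∈ {m | ∃ H : HG n, IsUniform r H ∧ kappa H k l = m} := by
    apply Nat.sSup_mem
    · exact ⟨_, ∅, by intro e he; simp at he, rfl⟩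
    · refine ⟨KC n r k l, ?_⟩
      rintro m ⟨H', h, rfl⟩
      exact kappa_le_KC hk h
  exact this

/-- The coloring `D` of `H` extended to `insert e H` by giving `e` the colour `i`. -/
noncomputable def ext (H : HG n) (e : Finset (Fin n)) (D : {x // x ∈ H} → Fin 24) (i : Fin 24) :
    {x // x ∈ insert e H} → Fin 24 :=
  fun x => if h : x.1 ∈ H then D ⟨x.1, h⟩ else i

theorem structure_thm {H : HG n} (hU : IsUniform 5 H)
    (hmax : ∀ H' : HG n, IsUniform 5 H' → kappa H' 24 4 ≤ kappa H 24 4)
    (hNP : 3 * ((Kn n) ^ 24 * (24 ^ 576 * 6309 ^ n)) < 2 * kappa H 24 4) :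
    ∃ C : Finset (Finset (Fin n)), (∀ t ∈ C, t.card = 4) ∧ C.card = 8 ∧ H = HC C 5 := by
  classical
  have hnp := nonperf_bound hU
  have hsplit : kappa H 24 4 ≤ cnt (IsPerf H) +
      cnt (fun D : {e // e ∈ H} → Fin 24 => IsKneser 4 H D ∧ ¬ IsPerf H D) := by
    rw [kappa_eq]
    refine le_trans (cnt_mono ?_) (cnt_or _ _)
    intro D hD
    by_cases h : IsPerf H D
    · exact Or.inl h
    · exact Or.inr ⟨hD, h⟩
  have hperfpos : 0 < cnt (IsPerf H) := by
    by_contra h0
    have : cnt (IsPerf H) = 0 := by omega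
    omega
  have hex : ∃ D, IsPerf H D := by
    by_contra hcon
    push Not at hcon
    rw [cnt_false hcon] at hperfpos
    omega
  obtain ⟨D0, a0, hD0⟩ := hex
  refine ⟨univ.image a0, ?_, ?_, ?_⟩
  · intro t ht
    obtain ⟨i, _, rfl⟩ := mem_image.mp ht
    exact hD0.1 i
  · have h1 : ∑ u ∈ univ.image a0, (univ.filter (fun j => a0 j = u)).card = 24 := by
      rw [← card_eq_sum_card_image a0 univ]; simp
    have h2 : ∑ u ∈ univ.image a0, (univ.filter (fun j => a0 j = u)).card
        = ∑ _u ∈ univ.image a0, 3 := by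
      apply sum_congr rfl
      intro u hu
      obtain ⟨j, _, rfl⟩ := mem_image.mp hu
      exact hD0.2.1 j
    rw [h2, sum_const, smul_eq_mul] at h1
    omega
  · have hsub : H ⊆ HC (univ.image a0) 5 := by
      intro e he
      rw [mem_HC]
      exact ⟨hU e he, a0 (D0 ⟨e, he⟩), mem_image_of_mem _ (mem_univ _), hD0.2.2.1 ⟨e, he⟩⟩
    by_contra hne
    have hex : ∃ e, e ∈ HC (univ.image a0) 5 ∧ e ∉ H := by
      by_contra hcon
      push Not at hcon
      exact hne (Subset.antisymm hsub hcon)
    obtain ⟨e, he, heH⟩ := hex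
    rw [mem_HC] at he
    obtain ⟨he5, t, ht, hte⟩ := he
    obtain ⟨i0, _, rfl⟩ := mem_image.mp ht
    have hU' : IsUniform 5 (insert e H) := by
      intro f hf
      rcases mem_insert.mp hf with rfl | hf
      · exact he5
      · exact hU f hf
    -- the good colours
    have hch : ∀ D : {x // x ∈ H} → Fin 24, ∃ a : Fin 24 → Finset (Fin n), IsPerf H D →
        Perf H D a := by
      intro D
      by_cases h : IsPerf H D
      · obtain ⟨a, ha⟩ := h
        exact ⟨a, fun _ => ha⟩
      · exact ⟨a0, fun h' => absurd h' h⟩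
    choose A hA using hch
    set PS : Finset ({x // x ∈ H} → Fin 24) := univ.filter (fun D => IsPerf H D) with hPS
    set SS : Finset (Σ _ : ({x // x ∈ H} → Fin 24), Fin 24) :=
      PS.sigma (fun D => univ.filter (fun i => A D i = a0 i0)) with hSS
    have hSSc : SS.card = 3 * cnt (IsPerf H) := by
      rw [hSS, card_sigma]
      have : ∀ D ∈ PS, (univ.filter (fun i => A D i = a0 i0)).card = 3 := by
        intro D hD
        rw [hPS, mem_filter] at hD
        have hp := hA D hD.2
        obtain ⟨j, hj⟩ := perf_unique hU hD0 hp i0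
        rw [← hj]
        exact hp.2.1 j
      rw [sum_congr rfl this, sum_const, smul_eq_mul, mul_comm, hPS, filter_cnt]
    have hle : SS.card ≤ cnt (IsKneser (k := 24) 4 (insert e H)) := by
      rw [← filter_cnt (inst := fun D => Classical.propDecidable _)]
      apply card_le_card_of_injOn (fun p => ext H e p.1 p.2)
      · rintro ⟨D, i⟩ hp
        rw [hSS] at hp
        have hp1 := mem_sigma.mp hp
        have hperf := hA D (by have := hp1.1; rw [hPS, mem_filter] at this; exact this.2)
        have hi : A D i = a0 i0 := (mem_filter.mp hp1.2).2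
        have hcont : ∀ x : {x // x ∈ insert e H}, A D (ext H e D i x) ⊆ x.1 := by
          intro x
          rw [ext]
          split_ifs with h
          · exact hperf.2.2.1 ⟨x.1, h⟩
          · have hx : x.1 = e := by
              rcases mem_insert.mp x.2 with h' | h'
              · exact h'
              · exact absurd h' h
            rw [hi, hx]
            exact hte
        have : IsKneser (k := 24) 4 (insert e H) (ext H e D i) := by
          intro x y hxy
          rw [← hperf.1 (ext H e D i x)]
          exact card_le_card (subset_inter (hcont x) (hxy ▸ hcont y))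
        simpa using this
      · rintro ⟨D, i⟩ hp ⟨D', i'⟩ hp' heq
        have h1 : D = D' := by
          funext x
          have := congrFun heq ⟨x.1, mem_insert_of_mem x.2⟩
          simp only [ext] at this
          rw [dif_pos x.2, dif_pos x.2] at this
          exact this
        have h2 : i = i' := by
          have := congrFun heq ⟨e, mem_insert_self _ _⟩
          simp only [ext] at this
          rw [dif_neg heH, dif_neg heH] at this
          exact this
        rw [h1, h2]
    have h1 := hmax _ hU'
    rw [kappa_eq (insert e H)] at h1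
    omega

end Q43.Kn
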