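import Pool.Agent.Q43.Kn.Star

/-!
The weights of the impure classes of the sunflower and of the eight planes.
-/

set_option linter.unusedSectionVars false
set_option linter.unusedVariables false
set_option maxRecDepth 20000

namespace Q43.Kn
open Finset
open Q43.Ko (cnt filter_cnt cnt_mono cnt_or cnt_false)

variable {n : ℕ}

lemma W_nonneg {E : Type*} [Fintype E] [DecidableEq E] (st : E → Fin 8) (F : Finset E) :
    0 ≤ W st F := by
  rw [W]; positivity

lemma sum_image_le {α β : Type*} [DecidableEq β] (s : Finset α) (f : α → β) (w : β → ℝ)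
    (hw : ∀ b, 0 ≤ w b) : ∑ b ∈ s.image f, w b ≤ ∑ a ∈ s, w (f a) := by
  classical
  rw [← sum_fiberwise_of_maps_to (s := s) (t := s.image f) (g := f)
    (fun a ha => mem_image_of_mem f ha)]
  apply sum_le_sum
  intro b hb
  obtain ⟨a, ha, rfl⟩ := mem_image.mp hb
  have : w (f a) = ∑ x ∈ {a}, w (f x) := by rw [sum_singleton]
  rw [this]
  apply sum_le_sum_of_subset_of_nonneg
  · intro x hx
    rw [mem_singleton] at hx
    rw [hx, mem_filter]
    exact ⟨ha, rfl⟩
  · intro x _ _
    exact hw _

/-- Nonempty subsets of a set with at most two elements. -/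
lemma sum_ne {α : Type*} [DecidableEq α] (Q : Finset α) (hQ : Q.card ≤ 2) (h : ℕ → ℝ)
    (h1 : 0 ≤ h 1) (h2 : 0 ≤ h 2) :
    ∑ A ∈ Q.powerset.erase ∅, h A.card ≤ 2 * h 1 + h 2 := by
  have e : h 0 + ∑ A ∈ Q.powerset.erase ∅, h A.card = ∑ A ∈ Q.powerset, h A.card := by
    have := add_sum_erase Q.powerset (fun A => h A.card) (empty_mem_powerset Q)
    simp only [card_empty] at this
    exact this
  rw [sum_powerset_apply_card] at e
  generalize ∑ A ∈ Q.powerset.erase ∅, h A.card = X at e ⊢
  have h3 : Q.card = 0 ∨ Q.card = 1 ∨ Q.card = 2 := by omega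
  rcases h3 with h3 | h3 | h3
  · rw [h3] at e
    simp [sum_range_succ] at e; linarith
  · rw [h3] at e
    simp [sum_range_succ] at e; linarith
  · rw [h3] at e
    simp [sum_range_succ] at e; linarith

section sun
variable {t : Fin 8 → Finset (Fin n)}

/-- Edges of the star `i` inside `t i ∪ t j`. -/
noncomputable def Q (t : Fin 8 → Finset (Fin n)) (i j : Fin 8) : Finset (ET t) :=
  univ.filter (fun e => t i ⊆ e.1 ∧ e.1 ⊆ t i ∪ t j)

lemma card_Q (h4 : ∀ i, (t i).card = 4) (h2 : ∀ i j, i ≠ j → (t i ∩ t j).card = 2) {i j : Fin 8}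
    (hij : i ≠ j) : (Q t i j).card ≤ 2 := by
  classical
  rw [← card_image_of_injective _ Subtype.val_injective]
  have hsub : (Q t i j).image Subtype.val ⊆ (t j \ t i).image (fun x => insert x (t i)) := by
    intro s hs
    obtain ⟨e, he, rfl⟩ := mem_image.mp hs
    rw [Q, mem_filter] at he
    obtain ⟨_, he1, he2⟩ := he
    have h3 : (e.1 \ t i).card = 1 := by rw [card_sdiff_of_subset he1, ET_card, h4]
    obtain ⟨x, hx⟩ := card_eq_one.mp h3
    have h5 : x ∈ e.1 \ t i := by rw [hx]; simp
    rw [mem_sdiff] at h5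
    have h6 : x ∈ t j := by
      rcases mem_union.mp (he2 h5.1) with h | h
      · exact absurd h h5.2
      · exact h
    refine mem_image.mpr ⟨x, mem_sdiff.mpr ⟨h6, h5.2⟩, ?_⟩
    apply eq_of_subset_of_card_le
    · intro z hz
      rcases mem_insert.mp hz with rfl | hz
      · exact h5.1
      · exact he1 hz
    · rw [ET_card, card_insert_of_notMem h5.2, h4]
  refine le_trans (card_le_card hsub) (le_trans card_image_le ?_)
  have := card_sdiff_add_card_inter (t j) (t i)
  rw [h4, h2 j i (Ne.symm hij)] at this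
  omega

open Classical in
/-- The impure cliques. -/
noncomputable def FF1 (t : Fin 8 → Finset (Fin n)) : Finset (Finset (ET t)) :=
  univ.filter (fun F => (∀ e ∈ F, ∀ f ∈ F, 4 ≤ (e.1 ∩ f.1).card) ∧
    ∃ e ∈ F, ∃ f ∈ F, star t e ≠ star t f)

lemma kneser_val {D : ET t → Fin 24} (hD : IsKneser 4 (HC (univ.image t) 5) D) :
    Val (star t) (FF1 t) D := by
  classical
  intro i
  by_cases h : PureAt (star t) D i
  · exact Or.inl h
  · right
    rw [FF1, mem_filter]
    refine ⟨mem_univ _, ?_, ?_⟩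
    · intro e he f hf
      rw [mem_filter] at he hf
      exact hD e f (he.2.trans hf.2.symm)
    · rw [PureAt] at h
      push Not at h
      obtain ⟨e, f, he, hf, hne⟩ := h
      exact ⟨e, mem_filter.mpr ⟨mem_univ _, he⟩, f, mem_filter.mpr ⟨mem_univ _, hf⟩, hne⟩

lemma FF1_struct (h4 : ∀ i, (t i).card = 4) (h2 : ∀ i j, i ≠ j → (t i ∩ t j).card = 2)
    {F : Finset (ET t)} (hF : F ∈ FF1 t) : ∃ i j, i < j ∧
      ∃ A ∈ (Q t i j).powerset.erase ∅, ∃ B ∈ (Q t j i).powerset.erase ∅, A ∪ B = F := by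
  classical
  have hg : Good t := ⟨h4, fun i j hij => (h2 i j hij).le⟩
  rw [FF1, mem_filter] at hF
  obtain ⟨_, hcl, e, he, f, hf, hne⟩ := hF
  -- order the two stars
  have key : ∀ e ∈ F, ∀ f ∈ F, star t e < star t f → ∃ i j, i < j ∧
      ∃ A ∈ (Q t i j).powerset.erase ∅, ∃ B ∈ (Q t j i).powerset.erase ∅, A ∪ B = F := by
    intro e he f hf hlt
    have hcomp : ∀ a ∈ F, ∀ b ∈ F, star t a ≠ star t b → a.1 ⊆ t (star t a) ∪ t (star t b) := by
      intro a ha b hb hab
      exact compat (h4 _) (h4 _) (h2 _ _ hab).le (ET_card a) (ET_card b) (star_sub a) (star_sub b)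
        (hcl a ha b hb)
    refine ⟨star t e, star t f, hlt, F.filter (fun x => star t x = star t e), ?_,
      F.filter (fun x => star t x = star t f), ?_, ?_⟩
    · rw [mem_erase, mem_powerset]
      refine ⟨?_, ?_⟩
      · rw [← nonempty_iff_ne_empty]
        exact ⟨e, mem_filter.mpr ⟨he, rfl⟩⟩
      · intro a ha
        rw [mem_filter] at ha
        rw [Q, mem_filter]
        refine ⟨mem_univ _, ha.2 ▸ star_sub a, ?_⟩
        have := hcomp a ha.1 f hf (by rw [ha.2]; exact hlt.ne)
        rwa [ha.2] at this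
    · rw [mem_erase, mem_powerset]
      refine ⟨?_, ?_⟩
      · rw [← nonempty_iff_ne_empty]
        exact ⟨f, mem_filter.mpr ⟨hf, rfl⟩⟩
      · intro a ha
        rw [mem_filter] at ha
        rw [Q, mem_filter]
        refine ⟨mem_univ _, ha.2 ▸ star_sub a, ?_⟩
        have := hcomp a ha.1 e he (by rw [ha.2]; exact hlt.ne')
        rwa [ha.2] at this
    · ext g
      rw [mem_union, mem_filter, mem_filter]
      constructor
      · rintro (h | h) <;> exact h.1
      · intro hgF
        by_cases h1 : star t g = star t e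
        · exact Or.inl ⟨hgF, h1⟩
        · by_cases h3 : star t g = star t f
          · exact Or.inr ⟨hgF, h3⟩
          · exfalso
            have h5 := hcomp e he g hgF (Ne.symm h1)
            have h6 := hcomp e he f hf hlt.ne
            have hsf := sunflower h4 h2 (star t f) (star t e) (star t g) hlt.ne h3
            have h7 : e.1 ⊆ t (star t e) := by
              intro x hx
              by_contra hxe
              have h8 : x ∈ t (star t g) := by
                rcases mem_union.mp (h5 hx) with h | h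
                · exact absurd h hxe
                · exact h
              have h9 : x ∈ t (star t f) := by
                rcases mem_union.mp (h6 hx) with h | h
                · exact absurd h hxe
                · exact h
              have h10 : x ∈ t (star t f) ∩ t (star t g) := mem_inter.mpr ⟨h9, h8⟩
              rw [← hsf] at h10
              exact hxe (mem_inter.mp h10).2
            have h11 := card_le_card h7
            rw [ET_card, h4] at h11
            omega
  rcases lt_or_gt_of_ne hne with h | h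
  · exact key e he f hf h
  · exact key f hf e he h

/-- The weight of a union. -/
lemma W_union (h4 : ∀ i, (t i).card = 4) (h2 : ∀ i j, i ≠ j → (t i ∩ t j).card = 2)
    {i j : Fin 8} (hij : i ≠ j) {A B : Finset (ET t)} (hA : A ⊆ Q t i j) (hB : B ⊆ Q t j i) :
    W (star t) (A ∪ B) = (1 / 3) ^ (A.card + B.card) * ((3 / 2) ^ A.card + (3 / 2) ^ B.card + 6) := by
  classical
  have hg : Good t := ⟨h4, fun i j hij => (h2 i j hij).le⟩
  have hAi : ∀ e ∈ A, star t e = i := by
    intro e he
    have := hA he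
    rw [Q, mem_filter] at this
    exact star_eq hg this.2.1
  have hBj : ∀ e ∈ B, star t e = j := by
    intro e he
    have := hB he
    rw [Q, mem_filter] at this
    exact star_eq hg this.2.1
  have hdis : Disjoint A B := by
    rw [disjoint_left]
    intro e he he'
    exact hij ((hAi e he).symm.trans (hBj e he'))
  have hfc : ∀ s, fc (star t) (A ∪ B) s = (if s = i then A.card else 0) +
      (if s = j then B.card else 0) := by
    intro s
    rw [fc, filter_union, card_union_of_disjoint (disjoint_filter_filter hdis)]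
    congr 1
    · split_ifs with h
      · rw [filter_true_of_mem (fun e he => (hAi e he).trans h.symm)]
      · rw [card_eq_zero, filter_eq_empty_iff]
        intro e he h'
        exact h (h'.symm.trans (hAi e he))
    · split_ifs with h
      · rw [filter_true_of_mem (fun e he => (hBj e he).trans h.symm)]
      · rw [card_eq_zero, filter_eq_empty_iff]
        intro e he h'
        exact h (h'.symm.trans (hBj e he))
  rw [W, ← mul_sum, card_union_of_disjoint hdis]
  congr 1
  have hj' : j ∈ univ.erase i := mem_erase.mpr ⟨Ne.symm hij, mem_univ _⟩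
  rw [← add_sum_erase univ _ (mem_univ i), ← add_sum_erase (univ.erase i) _ hj', hfc, hfc,
    if_pos rfl, if_neg hij, if_pos rfl, if_neg (Ne.symm hij), add_zero, zero_add]
  have : ∑ x ∈ (univ.erase i).erase j, (3 / 2 : ℝ) ^ (fc (star t) (A ∪ B) x) = 6 := by
    have h5 : ∀ x ∈ (univ.erase i).erase j, (3 / 2 : ℝ) ^ (fc (star t) (A ∪ B) x) = 1 := by
      intro x hx
      rw [mem_erase, mem_erase] at hx
      rw [hfc, if_neg hx.2.1, if_neg hx.1]
      norm_num
    rw [sum_congr rfl h5, sum_const, card_erase_of_mem hj', card_erase_of_mem (mem_univ _),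
      card_univ, Fintype.card_fin]
    norm_num
  rw [this]
  ring

lemma FF1_sum (h4 : ∀ i, (t i).card = 4) (h2 : ∀ i j, i ≠ j → (t i ∩ t j).card = 2) :
    (FF1 t).card ≤ 1024 ∧ ∑ F ∈ FF1 t, W (star t) F ≤ 157 := by
  classical
  set PP : Finset (Fin 8 × Fin 8) := univ.filter (fun p => p.1 < p.2) with hPP
  have hPPc : PP.card = 28 := by rw [hPP]; decide
  set JJ : Finset (Σ _ : Fin 8 × Fin 8, Finset (ET t) × Finset (ET t)) :=
    PP.sigma (fun p => (Q t p.1 p.2).powerset.erase ∅ ×ˢ (Q t p.2 p.1).powerset.erase ∅) with hJJ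
  have hsub : FF1 t ⊆ JJ.image (fun s => s.2.1 ∪ s.2.2) := by
    intro F hF
    obtain ⟨i, j, hij, A, hA, B, hB, hAB⟩ := FF1_struct h4 h2 hF
    refine mem_image.mpr ⟨⟨(i, j), (A, B)⟩, ?_, hAB⟩
    rw [hJJ, mem_sigma]
    exact ⟨mem_filter.mpr ⟨mem_univ _, hij⟩, mem_product.mpr ⟨hA, hB⟩⟩
  constructor
  · refine le_trans (card_le_card hsub) (le_trans card_image_le ?_)
    rw [hJJ, card_sigma]
    calc ∑ p ∈ PP, ((Q t p.1 p.2).powerset.erase ∅ ×ˢ (Q t p.2 p.1).powerset.erase ∅).card
        ≤ ∑ _p ∈ PP, 16 := by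
          apply sum_le_sum
          intro p hp
          have hne : p.1 ≠ p.2 := (mem_filter.mp hp).2.ne
          have h5 : ∀ i j, i ≠ j → ((Q t i j).powerset.erase ∅).card ≤ 4 := by
            intro i j hij
            refine le_trans (card_erase_le) ?_
            rw [card_powerset]
            calc 2 ^ (Q t i j).card ≤ 2 ^ 2 := Nat.pow_le_pow_right (by norm_num)
                  (card_Q h4 h2 hij)
              _ = 4 := by norm_num
          rw [card_product]
          calc _ ≤ 4 * 4 := Nat.mul_le_mul (h5 _ _ hne) (h5 _ _ (Ne.symm hne))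
            _ = 16 := by norm_num
      _ = 28 * 16 := by rw [sum_const, hPPc, smul_eq_mul]
      _ ≤ 1024 := by norm_num
  · calc ∑ F ∈ FF1 t, W (star t) F
        ≤ ∑ F ∈ JJ.image (fun s => s.2.1 ∪ s.2.2), W (star t) F :=
          sum_le_sum_of_subset_of_nonneg hsub (fun _ _ _ => W_nonneg _ _)
      _ ≤ ∑ s ∈ JJ, W (star t) (s.2.1 ∪ s.2.2) := sum_image_le _ _ _ (W_nonneg _)
      _ = ∑ p ∈ PP, ∑ A ∈ (Q t p.1 p.2).powerset.erase ∅, ∑ B ∈ (Q t p.2 p.1).powerset.erase ∅,
            W (star t) (A ∪ B) := by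
          rw [hJJ, sum_sigma]
          apply sum_congr rfl
          intro p _
          rw [sum_product]
      _ ≤ ∑ _p ∈ PP, (5.6 : ℝ) := by
          apply sum_le_sum
          intro p hp
          have hne : p.1 ≠ p.2 := (mem_filter.mp hp).2.ne
          have h5 : ∑ A ∈ (Q t p.1 p.2).powerset.erase ∅, ∑ B ∈ (Q t p.2 p.1).powerset.erase ∅,
              W (star t) (A ∪ B) ≤ ∑ A ∈ (Q t p.1 p.2).powerset.erase ∅,
              (2 * ((1 / 3 : ℝ) ^ (A.card + 1) * ((3 / 2) ^ A.card + (3 / 2) ^ 1 + 6)) +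
              (1 / 3 : ℝ) ^ (A.card + 2) * ((3 / 2) ^ A.card + (3 / 2) ^ 2 + 6)) := by
            apply sum_le_sum
            intro A hA
            have h6 : ∑ B ∈ (Q t p.2 p.1).powerset.erase ∅, W (star t) (A ∪ B)
                = ∑ B ∈ (Q t p.2 p.1).powerset.erase ∅,
                  (1 / 3 : ℝ) ^ (A.card + B.card) * ((3 / 2) ^ A.card + (3 / 2) ^ B.card + 6) := by
              apply sum_congr rfl
              intro B hB
              rw [mem_erase, mem_powerset] at hA hB
              exact W_union h4 h2 hne hA.2 hB.2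
            rw [h6]
            exact sum_ne (Q t p.2 p.1) (card_Q h4 h2 (Ne.symm hne))
              (fun b => (1 / 3 : ℝ) ^ (A.card + b) * ((3 / 2) ^ A.card + (3 / 2) ^ b + 6))
              (by positivity) (by positivity)
          refine le_trans h5 ?_
          refine le_trans (sum_ne (Q t p.1 p.2) (card_Q h4 h2 hne)
            (fun a => 2 * ((1 / 3 : ℝ) ^ (a + 1) * ((3 / 2) ^ a + (3 / 2) ^ 1 + 6)) +
              (1 / 3 : ℝ) ^ (a + 2) * ((3 / 2) ^ a + (3 / 2) ^ 2 + 6))
              (by positivity) (by positivity)) ?_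
          norm_num
      _ = 28 * 5.6 := by rw [sum_const, hPPc]; norm_num
      _ ≤ 157 := by norm_num

end sun

section ag

/-- The eight planes among the first eight vertices. -/
noncomputable def tp {n : ℕ} (h : 8 ≤ n) (i : Fin 8) : Finset (Fin n) :=
  (plane i).map (Fin.castLEEmb h)

lemma tp_good {n : ℕ} (h : 8 ≤ n) : Good (tp h) := by
  constructor
  · intro i; rw [tp, card_map]; exact plane_card i
  · intro i j hij
    rw [tp, tp, ← map_inter, card_map]
    exact plane_inter i j hij

/-- The special edges. -/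
noncomputable def ge {n : ℕ} (h : 8 ≤ n) (i : Fin 32) : ET (tp h) :=
  ⟨(edge i).map (Fin.castLEEmb h), by
    rw [mem_HC]
    refine ⟨by rw [card_map]; exact edge_card i, tp h (str i), mem_image_of_mem _ (mem_univ _), ?_⟩
    rw [tp]
    exact map_subset_map.mpr (plane_sub i)⟩

lemma ge_star {n : ℕ} (h : 8 ≤ n) (i : Fin 32) : star (tp h) (ge h i) = str i := by
  apply star_eq (tp_good h)
  rw [tp]
  exact map_subset_map.mpr (plane_sub i)

lemma ge_inj {n : ℕ} (h : 8 ≤ n) : Function.Injective (ge h) := by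
  intro i j hij
  apply edge_inj
  have := congrArg Subtype.val hij
  exact map_injective _ this

lemma ge_cmp {n : ℕ} (h : 8 ≤ n) {i j : Fin 32} (hc : cmp i j = true) :
    4 ≤ ((ge h i).1 ∩ (ge h j).1).card := by
  simp only [ge]
  rw [← map_inter, card_map]
  exact cmp_spec i j hc

noncomputable def FP {n : ℕ} (h : 8 ≤ n) : Finset (Finset (ET (tp h))) :=
  pairs.image (fun p => {ge h p.1, ge h p.2})

noncomputable def FT {n : ℕ} (h : 8 ≤ n) : Finset (Finset (ET (tp h))) :=
  triples.image (fun p => {ge h p.1, ge h p.2.1, ge h p.2.2})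

lemma card_FP {n : ℕ} (h : 8 ≤ n) : (FP h).card = 108 := by
  rw [FP, card_image_of_injOn, card_pairs]
  rintro ⟨a, b⟩ hp ⟨c, d⟩ hq heq
  rw [mem_coe, pairs, mem_filter] at hp hq
  have hp1 : a < b := hp.2.1
  have hq1 : c < d := hq.2.1
  simp only at heq
  have e1 : ge h a ∈ ({ge h c, ge h d} : Finset (ET (tp h))) := by rw [← heq]; simp
  have e2 : ge h b ∈ ({ge h c, ge h d} : Finset (ET (tp h))) := by rw [← heq]; simp
  simp only [mem_insert, mem_singleton, (ge_inj h).eq_iff] at e1 e2
  rw [Fin.lt_def] at hp1 hq1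
  simp only [Fin.ext_iff] at e1 e2
  simp only [Prod.mk.injEq, Fin.ext_iff]
  omega

lemma card_FT {n : ℕ} (h : 8 ≤ n) : (FT h).card = 204 := by
  rw [FT, card_image_of_injOn, card_triples]
  rintro ⟨a, b, c⟩ hp ⟨a', b', c'⟩ hq heq
  rw [mem_coe, triples, mem_filter] at hp hq
  have hp1 : a < b := hp.2.1
  have hp2 : b < c := hp.2.2.1
  have hq1 : a' < b' := hq.2.1
  have hq2 : b' < c' := hq.2.2.1
  simp only at heq
  have e1 : ge h a ∈ ({ge h a', ge h b', ge h c'} : Finset (ET (tp h))) := by rw [← heq]; simp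
  have e2 : ge h b ∈ ({ge h a', ge h b', ge h c'} : Finset (ET (tp h))) := by rw [← heq]; simp
  have e3 : ge h c ∈ ({ge h a', ge h b', ge h c'} : Finset (ET (tp h))) := by rw [← heq]; simp
  simp only [mem_insert, mem_singleton, (ge_inj h).eq_iff] at e1 e2 e3
  rw [Fin.lt_def] at hp1 hp2 hq1 hq2
  simp only [Fin.ext_iff] at e1 e2 e3
  simp only [Prod.mk.injEq, Fin.ext_iff]
  omega

lemma FP_two {n : ℕ} (h : 8 ≤ n) {F : Finset (ET (tp h))} (hF : F ∈ FP h) : F.card = 2 := by
  obtain ⟨p, hp, rfl⟩ := mem_image.mp hF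
  rw [pairs, mem_filter] at hp
  exact card_pair (fun h' => hp.2.1.ne (ge_inj h h'))

lemma FT_three {n : ℕ} (h : 8 ≤ n) {F : Finset (ET (tp h))} (hF : F ∈ FT h) : F.card = 3 := by
  obtain ⟨p, hp, rfl⟩ := mem_image.mp hF
  rw [triples, mem_filter] at hp
  rw [card_eq_three]
  refine ⟨_, _, _, fun h' => hp.2.1.ne (ge_inj h h'),
    fun h' => (hp.2.1.trans hp.2.2.1).ne (ge_inj h h'), fun h' => hp.2.2.1.ne (ge_inj h h'), rfl⟩

lemma FPT_disj {n : ℕ} (h : 8 ≤ n) : Disjoint (FP h) (FT h) := by
  rw [disjoint_left]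
  intro F h1 h2
  have := FP_two h h1
  have := FT_three h h2
  omega

lemma FPT_impure {n : ℕ} (h : 8 ≤ n) : ∀ F ∈ FP h ∪ FT h, ∃ e ∈ F, ∃ f ∈ F,
    star (tp h) e ≠ star (tp h) f := by
  intro F hF
  rcases mem_union.mp hF with hF | hF
  · obtain ⟨p, hp, rfl⟩ := mem_image.mp hF
    rw [pairs, mem_filter] at hp
    refine ⟨ge h p.1, by simp, ge h p.2, by simp, ?_⟩
    rw [ge_star, ge_star]
    exact hp.2.2.1
  · obtain ⟨p, hp, rfl⟩ := mem_image.mp hF
    rw [triples, mem_filter] at hp
    rcases hp.2.2.2.2.2.2 with h' | h'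
    · refine ⟨ge h p.1, by simp, ge h p.2.1, by simp, ?_⟩
      rw [ge_star, ge_star]; exact h'
    · refine ⟨ge h p.2.1, by simp, ge h p.2.2, by simp, ?_⟩
      rw [ge_star, ge_star]; exact h'

lemma FPT_clique {n : ℕ} (h : 8 ≤ n) : ∀ F ∈ FP h ∪ FT h, ∀ e ∈ F, ∀ f ∈ F,
    4 ≤ (e.1 ∩ f.1).card := by
  have hself : ∀ e : ET (tp h), 4 ≤ (e.1 ∩ e.1).card := by
    intro e; rw [inter_self, ET_card]; omega
  have hsym : ∀ e f : ET (tp h), 4 ≤ (e.1 ∩ f.1).card → 4 ≤ (f.1 ∩ e.1).card := by
    intro e f h'; rwa [inter_comm]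
  intro F hF e he f hf
  rcases mem_union.mp hF with hF | hF
  · obtain ⟨p, hp, rfl⟩ := mem_image.mp hF
    rw [pairs, mem_filter] at hp
    have h1 := ge_cmp h hp.2.2.2
    simp only [mem_insert, mem_singleton] at he hf
    rcases he with rfl | rfl <;> rcases hf with rfl | rfl
    · exact hself _
    · exact h1
    · exact hsym _ _ h1
    · exact hself _
  · obtain ⟨p, hp, rfl⟩ := mem_image.mp hF
    rw [triples, mem_filter] at hp
    obtain ⟨_, _, _, c1, c2, c3, _⟩ := hp
    have h1 := ge_cmp h c1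
    have h2 := ge_cmp h c2
    have h3 := ge_cmp h c3
    simp only [mem_insert, mem_singleton] at he hf
    rcases he with rfl | rfl | rfl <;> rcases hf with rfl | rfl | rfl
    · exact hself _
    · exact h1
    · exact h3
    · exact hsym _ _ h1
    · exact hself _
    · exact h2
    · exact hsym _ _ h3
    · exact hsym _ _ h2
    · exact hself _

lemma val_kneser {n : ℕ} (h : 8 ≤ n) {D : ET (tp h) → Fin 24}
    (hD : Val (star (tp h)) (FP h ∪ FT h) D) : IsKneser 4 (HC (univ.image (tp h)) 5) D := by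
  classical
  intro e f hef
  rcases hD (D e) with h' | h'
  · have h1 := h' e f rfl hef.symm
    rw [← (tp_good h).c4 (star (tp h) e)]
    apply card_le_card
    exact subset_inter (star_sub e) (h1 ▸ star_sub f)
  · exact FPT_clique h _ h' e (mem_filter.mpr ⟨mem_univ _, rfl⟩) f
      (mem_filter.mpr ⟨mem_univ _, hef.symm⟩)

lemma W_lower {E : Type*} [Fintype E] [DecidableEq E] (st : E → Fin 8) (F : Finset E) :
    (1 / 3) ^ F.card * (8 + F.card / 2) ≤ W st F := by
  rw [W, ← mul_sum]
  apply mul_le_mul_of_nonneg_left _ (by positivity)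
  have h1 : ∑ t, fc st F t = F.card := by
    rw [card_eq_sum_card_fiberwise (s := F) (t := (univ : Finset (Fin 8))) (f := st)
      (fun x _ => mem_univ _)]
    rfl
  have h2 : (F.card : ℝ) = ∑ t, (fc st F t : ℝ) := by rw [← h1]; push_cast; rfl
  calc (8 : ℝ) + F.card / 2 = ∑ t : Fin 8, (1 + (fc st F t : ℝ) * (1 / 2)) := by
        rw [sum_add_distrib, ← sum_mul, ← h2]
        simp
        ring
    _ ≤ ∑ t, (3 / 2 : ℝ) ^ (fc st F t) := by
        apply sum_le_sum
        intro t _
        have := one_add_mul_le_pow (show (-2 : ℝ) ≤ 1 / 2 by norm_num) (fc st F t)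
        calc (1 : ℝ) + (fc st F t : ℝ) * (1 / 2) ≤ (1 + 1 / 2) ^ (fc st F t) := this
          _ = (3 / 2) ^ (fc st F t) := by norm_num

lemma FPT_sum {n : ℕ} (h : 8 ≤ n) : 179 ≤ ∑ F ∈ FP h ∪ FT h, W (star (tp h)) F := by
  rw [sum_union (FPT_disj h)]
  have h1 : (108 : ℝ) * 1 ≤ ∑ F ∈ FP h, W (star (tp h)) F := by
    have : ∑ _F ∈ FP h, (1 : ℝ) ≤ ∑ F ∈ FP h, W (star (tp h)) F := by
      apply sum_le_sum
      intro F hF
      refine le_trans ?_ (W_lower _ F)
      rw [FP_two h hF]
      norm_num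
    rw [sum_const, card_FP, nsmul_eq_mul] at this
    exact_mod_cast this
  have h2 : (204 : ℝ) * (19 / 54) ≤ ∑ F ∈ FT h, W (star (tp h)) F := by
    have : ∑ _F ∈ FT h, (19 / 54 : ℝ) ≤ ∑ F ∈ FT h, W (star (tp h)) F := by
      apply sum_le_sum
      intro F hF
      refine le_trans ?_ (W_lower _ F)
      rw [FT_three h hF]
      norm_num
    rw [sum_const, card_FT, nsmul_eq_mul] at this
    exact_mod_cast this
  linarith

end ag

end Q43.Kn
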